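import Pool.Agent.K7.H35.R.Step

/-!
# The flows are put together
-/

set_option autoImplicit false

open Set Topology Filter

namespace Pool.Agent.K7.H35.R

open Pool.Agent.Y489.GE

variable {X Y : Type} [MetricSpace X] [TopologicalSpace Y]

/-- the times of the flows -/
theorem times {q : ℕ} {w : ℕ → Y → ℝ} {η : ℝ} (hη : 0 < η) (hw : ∀ v, Continuous (w v))
    (hwη : ∀ y, ∃ v ≤ q, η ≤ w v y) :
    ∃ a : Finset ℕ → Y → ℝ, (∀ S, Continuous (a S)) ∧ (∀ S y, a S y ∈ Icc (0 : ℝ) 1) ∧
      (∀ S y, 0 < a S y → (∀ v ∈ S, v ≤ q ∧ 0 < w v y) ∧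
        ∀ v ∈ S, ∀ v' ≤ q, v' ∉ S → w v' y < w v y) ∧
      ∀ y, ∃ S, S ⊆ Finset.range (q + 1) ∧ S.Nonempty ∧ a S y = 1 := by
  classical
  set w' : ℕ → Y → ℝ := fun v y => if v ≤ q then w v y else 0 with hw'
  have hc' : ∀ v, Continuous (w' v) := by
    intro v
    by_cases h : v ≤ q
    · simp only [hw', h, if_true]
      exact hw v
    · simp only [hw', h, if_false]
      exact continuous_const
  have hne : ∀ S : Finset ℕ, S.Nonempty ∧ S ⊆ Finset.range (q + 1) →
      (S ×ˢ (Finset.range (q + 2) \ S)).Nonempty := by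
    rintro S ⟨⟨v, hv⟩, h⟩
    refine ⟨(v, q + 1), Finset.mem_product.2 ⟨hv, Finset.mem_sdiff.2 ⟨Finset.mem_range.2 (by omega),
      fun h1 => ?_⟩⟩⟩
    have := Finset.mem_range.1 (h h1)
    omega
  set gap : Finset ℕ → Y → ℝ := fun S y => if h : S.Nonempty ∧ S ⊆ Finset.range (q + 1) then
    (S ×ˢ (Finset.range (q + 2) \ S)).inf' (hne S h) (fun z => w' z.1 y - w' z.2 y) else 0
    with hgap
  have hgc : ∀ S, Continuous (gap S) := by
    intro S
    by_cases h : S.Nonempty ∧ S ⊆ Finset.range (q + 1)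
    · simp only [hgap, h]
      exact Continuous.finset_inf'_apply (hne S h) fun z _ => (hc' z.1).sub (hc' z.2)
    · have : gap S = fun _ => 0 := by
        funext y
        simp only [hgap, h, dif_neg, not_false_eq_true]
      rw [this]
      exact continuous_const
  have hgp : ∀ S y, 0 < gap S y → S.Nonempty ∧ S ⊆ Finset.range (q + 1) ∧
      ∀ v ∈ S, ∀ v' ∈ Finset.range (q + 2) \ S, w' v' y < w' v y := by
    intro S y h0
    by_cases h : S.Nonempty ∧ S ⊆ Finset.range (q + 1)
    · have h1 : gap S y = (S ×ˢ (Finset.range (q + 2) \ S)).inf' (hne S h)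
          (fun z => w' z.1 y - w' z.2 y) := by
        simp only [hgap]
        rw [dif_pos h]
      rw [h1, Finset.lt_inf'_iff] at h0
      refine ⟨h.1, h.2, fun v hv v' hv' => ?_⟩
      have := h0 (v, v') (Finset.mem_product.2 ⟨hv, hv'⟩)
      dsimp only at this
      linarith
    · have : gap S y = 0 := by
        simp only [hgap]
        rw [dif_neg h]
      rw [this] at h0
      exact absurd h0 (lt_irrefl _)
  have hq0 : (0 : ℝ) < q + 1 := by positivity
  set δ : ℝ := η / (q + 1) with hδ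
  have hδ0 : 0 < δ := div_pos hη hq0
  have hqδ : ((q : ℝ) + 1) * δ = η := by rw [hδ]; field_simp
  refine ⟨fun S y => cl (gap S y / δ), fun S => cl_cont.comp ((hgc S).div_const _),
    fun S y => cl_mem _, fun S y h => ?_, fun y => ?_⟩
  · have h0 : 0 < gap S y := by
      by_contra hcon
      push Not at hcon
      dsimp only at h
      rw [cl_of_le (div_nonpos_of_nonpos_of_nonneg hcon hδ0.le)] at h
      exact lt_irrefl _ h
    obtain ⟨h1, h2, h3⟩ := hgp S y h0
    have h4 : ∀ v ∈ S, v ≤ q := fun v hv => by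
      have := Finset.mem_range.1 (h2 hv)
      omega
    refine ⟨fun v hv => ⟨h4 v hv, ?_⟩, fun v hv v' hv' hv'S => ?_⟩
    · have h5 := h3 v hv (q + 1) (Finset.mem_sdiff.2 ⟨Finset.mem_range.2 (by omega), fun h6 => by
        have := h4 _ h6
        omega⟩)
      simp only [hw', if_pos (h4 v hv), if_neg (show ¬ q + 1 ≤ q by omega)] at h5
      exact h5
    · have h5 := h3 v hv v' (Finset.mem_sdiff.2 ⟨Finset.mem_range.2 (by omega), hv'S⟩)
      simp only [hw', if_pos (h4 v hv), if_pos hv'] at h5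
      exact h5
  · by_contra hcon
    push Not at hcon
    have hbad : ∀ S, S ⊆ Finset.range (q + 1) → S.Nonempty → ∃ v ∈ S, ∃ v' ∈
        Finset.range (q + 2) \ S, w' v y - w' v' y < δ := by
      intro S hS hSn
      by_contra hc
      push Not at hc
      apply hcon S hS hSn
      apply cl_of_ge
      rw [one_le_div hδ0]
      have h1 : gap S y = (S ×ˢ (Finset.range (q + 2) \ S)).inf' (hne S ⟨hSn, hS⟩)
          (fun z => w' z.1 y - w' z.2 y) := by
        simp only [hgap]
        rw [dif_pos ⟨hSn, hS⟩]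
      rw [h1, Finset.le_inf'_iff]
      rintro ⟨v, v'⟩ hz
      exact hc v (Finset.mem_product.1 hz).1 v' (Finset.mem_product.1 hz).2
    have key : ∀ j, j ≤ q + 1 → ∃ S, S ⊆ Finset.range (q + 1) ∧ S.card = j + 1 ∧
        ∀ v ∈ S, η - j * δ ≤ w' v y := by
      intro j
      induction j with
      | zero =>
        intro _
        obtain ⟨v, hv, hv'⟩ := hwη y
        refine ⟨{v}, Finset.singleton_subset_iff.2 (Finset.mem_range.2 (by omega)), by simp,
          fun u hu => ?_⟩
        rw [Finset.mem_singleton.1 hu]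
        simp only [hw', if_pos hv]
        push_cast
        linarith
      | succ j ih =>
        intro hj
        obtain ⟨S, hS, hcard, hSv⟩ := ih (by omega)
        obtain ⟨v, hv, v', hv', hlt⟩ := hbad S hS (Finset.card_pos.1 (by omega))
        rw [Finset.mem_sdiff, Finset.mem_range] at hv'
        have h1 : η - ((j : ℝ) + 1) * δ < w' v' y := by
          have := hSv v hv
          linarith
        have h2 : (0 : ℝ) ≤ η - ((j : ℝ) + 1) * δ := by
          have : ((j : ℝ) + 1) ≤ q + 1 := by exact_mod_cast hj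
          nlinarith
        have h3 : v' ≤ q := by
          by_contra hcq
          simp only [hw', if_neg hcq] at h1
          linarith
        refine ⟨insert v' S, Finset.insert_subset (Finset.mem_range.2 (by omega)) hS, ?_, ?_⟩
        · rw [Finset.card_insert_of_notMem hv'.2, hcard]
        · intro u hu
          push_cast
          rcases Finset.mem_insert.1 hu with h4 | h4
          · rw [h4]
            exact h1.le
          · have := hSv u h4
            linarith
    obtain ⟨S, hS, hcard, -⟩ := key (q + 1) le_rfl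
    have := Finset.card_le_card hS
    rw [Finset.card_range] at this
    omega

/-- the numbers of the marked vertices -/
def mks (K : ℕ) (S : Finset ℕ) : Set ℕ := {i | ∃ v ∈ S, i = K * v}

/-- the state of the construction -/
structure State (F : Set X) (K q : ℕ) (e L ε : ℝ) (w : ℕ → Y → ℝ) (a : Finset ℕ → Y → ℝ)
    (A : Set Y) (c₀ : Y → ℕ → X) (PS : Finset (Finset ℕ)) (g : Y → ℕ → X) : Prop where
  htp : Htp univ A c₀ g
  dom : ∀ y, g y ∈ Dom F (K * q) ∅ e L
  mark : ∀ y, ∀ v ≤ q, 0 < w v y → (∀ S ∈ PS, 0 < a S y → v ∈ S) → g y (K * v) ∈ F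
  short : ∀ y, ∀ S ∈ PS, a S y = 1 → cum (g y) (K * q) ≤ ε

section

variable {F : Set X} {K q : ℕ} {e L ε : ℝ} {w : ℕ → Y → ℝ} {a : Finset ℕ → Y → ℝ}
  {A : Set Y} {c₀ : Y → ℕ → X} {PS : Finset (Finset ℕ)} {g : Y → ℕ → X} {p : Y → X}

theorem htp_cont {W : Type} [TopologicalSpace W] {f g : Y → W} (h : Htp univ A f g) :
    Continuous g := by
  obtain ⟨H, h1, _, _, h4, _⟩ := h
  have : g = fun y => H y 1 := by
    funext y
    rw [h4 y 1 le_rfl]
  rw [this]
  exact h1.comp (continuous_id.prodMk continuous_const)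

theorem htp_eq {W : Type} [TopologicalSpace W] {f g : Y → W} (h : Htp univ A f g) {y : Y}
    (hy : y ∈ A) : g y = f y := by
  obtain ⟨H, _, _, _, h4, h5⟩ := h
  rw [← h4 y 1 le_rfl, h5 y hy]

theorem State.step (hF : IsClosed F) (h : State F K q e L ε w a A c₀ PS g)
    (hac : ∀ S, Continuous (a S)) (ha01 : ∀ S y, a S y ∈ Icc (0 : ℝ) 1)
    (ha : ∀ S y, 0 < a S y → (∀ v ∈ S, v ≤ q ∧ 0 < w v y) ∧
        ∀ v ∈ S, ∀ v' ≤ q, v' ∉ S → w v' y < w v y)
    (hA : ∀ y ∈ A, c₀ y = fun _ => p y) (S : Finset ℕ) (hS : ∀ S' ∈ PS, S.card ≤ S'.card)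
    {Q : (ℕ → X) → ℝ → (ℕ → X)} (hQ : Fl (K * q) (Dom F (K * q) (mks K S) e L) Q)
    (hQε : ∀ c ∈ Dom F (K * q) (mks K S) e L, cum (Q c 1) (K * q) ≤ ε) :
    ∃ g', State F K q e L ε w a A c₀ (insert S PS) g' := by
  classical
  have hgc : Continuous g := htp_cont h.htp
  have hnest : ∀ y, 0 < a S y → ∀ S' ∈ PS, 0 < a S' y → S ⊆ S' := by
    intro y h1 S' hS' h2 v hv
    by_contra hv'
    obtain ⟨h3, h4⟩ := ha S y h1
    obtain ⟨h5, h6⟩ := ha S' y h2
    have : ∃ u ∈ S', u ∉ S := by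
      by_contra hcon
      push Not at hcon
      have h7 : S' ⊆ S := hcon
      have h8 := Finset.eq_of_subset_of_card_le h7 (hS S' hS')
      rw [h8] at hv'
      exact hv' hv
    obtain ⟨u, hu, hu'⟩ := this
    have h7 := h4 v hv u (h5 u hu).1 hu'
    have h8 := h6 u hu v (h3 v hv).1 hv'
    linarith
  have hdom : ∀ y, 0 < a S y → g y ∈ Dom F (K * q) (mks K S) e L := by
    intro y hy
    obtain ⟨h1, h2⟩ := h.dom y
    refine ⟨⟨h1.1, ?_⟩, h2⟩
    rintro i ⟨v, hv, rfl⟩
    obtain ⟨h3, h4⟩ := (ha S y hy).1 v hv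
    exact h.mark y v h3 h4 fun S' hS' hy' => hnest y hy S' hS' hy' hv
  have h01 : ∀ y s, cl s * a S y ∈ Icc (0 : ℝ) 1 := fun y s =>
    ⟨mul_nonneg (cl_mem s).1 (ha01 S y).1, mul_le_one₀ (cl_mem s).2 (ha01 S y).1 (ha01 S y).2⟩
  set H : Y → ℝ → (ℕ → X) := fun y s => if a S y ≤ 0 then g y else Q (g y) (cl s * a S y) with hH
  have hHQ : ∀ y s, g y ∈ Dom F (K * q) (mks K S) e L → H y s = Q (g y) (cl s * a S y) := by
    intro y s hy
    simp only [hH]
    split_ifs with h1
    · have h2 : a S y = 0 := le_antisymm h1 (ha01 S y).1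
      rw [h2, mul_zero, hQ.zero _ hy]
    · rfl
  have hHc : Continuous fun z : Y × ℝ => H z.1 z.2 := by
    have hcov : ({z : Y × ℝ | a S z.1 ≤ 0} ∪ {z : Y × ℝ | g z.1 ∈ Dom F (K * q) (mks K S) e L}) =
        univ := by
      ext z
      simp only [mem_union, mem_ofPred_eq, mem_univ, iff_true]
      rcases le_or_gt (a S z.1) 0 with h1 | h1
      · exact Or.inl h1
      · exact Or.inr (hdom _ h1)
    rw [← continuousOn_univ, ← hcov]
    refine ContinuousOn.union_of_isClosed ?_ ?_ ?_ ?_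
    · refine (hgc.comp continuous_fst).continuousOn.congr fun z hz => ?_
      simp only [hH]
      exact if_pos hz
    · have h2 : ContinuousOn (fun z : Y × ℝ => ((g z.1, cl z.2 * a S z.1) : (ℕ → X) × ℝ))
          {z : Y × ℝ | g z.1 ∈ Dom F (K * q) (mks K S) e L} := by
        apply Continuous.continuousOn
        exact (hgc.comp continuous_fst).prodMk ((cl_cont.comp continuous_snd).mul
          ((hac S).comp continuous_fst))
      exact (hQ.cont.comp h2 fun z hz => ⟨hz, h01 _ _⟩).congr fun z hz => hHQ _ _ hz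
    · exact isClosed_le ((hac S).comp continuous_fst) continuous_const
    · exact (dom_closed hF _ _ _ _).preimage (hgc.comp continuous_fst)
  have hH1 : ∀ y, 0 < a S y → H y 1 = Q (g y) (a S y) := by
    intro y hy
    rw [hHQ y 1 (hdom y hy), cl_of_ge le_rfl, one_mul]
  have hH0 : ∀ y s, ¬ 0 < a S y → H y s = g y := by
    intro y s hy
    simp only [hH]
    exact if_pos (not_lt.1 hy)
  have hdom' : ∀ y, 0 < a S y → H y 1 ∈ Dom F (K * q) (mks K S) e L := by
    intro y hy
    rw [hH1 y hy]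
    exact hQ.mem _ (hdom y hy) _ (ha01 S y)
  refine ⟨fun y => H y 1, ?_, ?_, ?_, ?_⟩
  · refine h.htp.trans ⟨H, hHc, fun _ _ => mem_univ _, fun y s hs => ?_, fun y s hs => ?_,
      fun y hy s => ?_⟩
    · by_cases h1 : 0 < a S y
      · rw [hHQ y s (hdom y h1), cl_of_le hs, zero_mul, hQ.zero _ (hdom y h1)]
      · exact hH0 y s h1
    · show H y s = H y 1
      by_cases h1 : 0 < a S y
      · rw [hHQ y s (hdom y h1), hHQ y 1 (hdom y h1), cl_of_ge hs, cl_of_ge le_rfl]
      · rw [hH0 y s h1, hH0 y 1 h1]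
    · by_cases h1 : 0 < a S y
      · have h2 : g y = fun _ => p y := by rw [htp_eq h.htp hy, hA y hy]
        have h3 := hdom y h1
        rw [hHQ y s h3]
        rw [h2] at h3 ⊢
        exact hQ.const (p y) h3 _ (h01 y s)
      · exact hH0 y s h1
  · intro y
    show H y 1 ∈ _
    by_cases h1 : 0 < a S y
    · obtain ⟨h2, h3⟩ := hdom' y h1
      exact ⟨⟨h2.1, fun i hi => absurd hi (by simp)⟩, h3⟩
    · rw [hH0 y 1 h1]
      exact h.dom y
  · intro y v hv hw hm
    show H y 1 (K * v) ∈ F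
    by_cases h1 : 0 < a S y
    · have h2 : v ∈ S := hm S (Finset.mem_insert_self _ _) h1
      exact (hdom' y h1).1.2 (K * v) ⟨v, h2, rfl⟩
    · rw [hH0 y 1 h1]
      exact h.mark y v hv hw fun S' hS' => hm S' (Finset.mem_insert_of_mem hS')
  · intro y S' hS' h1
    show cum (H y 1) _ ≤ ε
    rcases Finset.mem_insert.1 hS' with h2 | h2
    · rw [h2] at h1
      have h3 : 0 < a S y := by rw [h1]; exact one_pos
      rw [hH1 y h3, h1]
      exact hQε _ (hdom y h3)
    · have h4 := h.short y S' h2 h1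
      by_cases h3 : 0 < a S y
      · rw [hH1 y h3]
        exact (hQ.cum_le _ (hdom y h3) _ (ha01 S y)).trans h4
      · rw [hH0 y 1 h3]
        exact h4

/-- the final family -/
theorem assemble (hF : IsClosed F) {η : ℝ} (hη : 0 < η) (hw : ∀ v, Continuous (w v))
    (hwη : ∀ y, ∃ v ≤ q, η ≤ w v y) (hc : Continuous c₀)
    (hdom : ∀ y, c₀ y ∈ Dom F (K * q) ∅ e L)
    (hmark : ∀ y, ∀ v ≤ q, 0 < w v y → c₀ y (K * v) ∈ F)
    (hA : ∀ y ∈ A, c₀ y = fun _ => p y)
    (hQ : ∀ S : Finset ℕ, S ⊆ Finset.range (q + 1) → ∃ Q : (ℕ → X) → ℝ → (ℕ → X),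
      Fl (K * q) (Dom F (K * q) (mks K S) e L) Q ∧
      ∀ c ∈ Dom F (K * q) (mks K S) e L, cum (Q c 1) (K * q) ≤ ε) :
    ∃ g, Htp univ A c₀ g ∧ (∀ y, g y ∈ Dom F (K * q) ∅ e L) ∧ (∀ y, cum (g y) (K * q) ≤ ε) ∧
      ∀ y, ∃ v ≤ q, g y (K * v) ∈ F := by
  classical
  obtain ⟨a, ha1, ha2, ha3, ha4⟩ := times hη hw hwη
  have key : ∃ g, State F K q e L ε w a A c₀
      ((Finset.range (q + 1)).powerset.filter fun S => S.Nonempty) g := by
    have hall : ∀ S ∈ (Finset.range (q + 1)).powerset.filter (fun S => S.Nonempty),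
        S ⊆ Finset.range (q + 1) := fun S hS => Finset.mem_powerset.1 (Finset.mem_filter.1 hS).1
    revert hall
    generalize ((Finset.range (q + 1)).powerset.filter fun S => S.Nonempty) = QS
    intro hall
    induction QS using Finset.induction_on_min_value (fun S : Finset ℕ => S.card) with
    | empty =>
      refine ⟨c₀, ⟨⟨fun y _ => c₀ y, hc.comp continuous_fst, fun _ _ => mem_univ _,
        fun _ _ _ => rfl, fun _ _ _ => rfl, fun _ _ _ => rfl⟩, hdom,
        fun y v hv hwv _ => hmark y v hv hwv, fun y S hS => absurd hS (by simp)⟩⟩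
    | insert S QS hS hle ih =>
      obtain ⟨g, hg⟩ := ih fun S' hS' => hall S' (Finset.mem_insert_of_mem hS')
      obtain ⟨Q, hQ1, hQ2⟩ := hQ S (hall S (Finset.mem_insert_self _ _))
      exact hg.step hF ha1 ha2 ha3 hA S hle hQ1 hQ2
  obtain ⟨g, hg⟩ := key
  refine ⟨g, hg.htp, hg.dom, fun y => ?_, fun y => ?_⟩
  · obtain ⟨S, h1, h2, h3⟩ := ha4 y
    exact hg.short y S (Finset.mem_filter.2 ⟨Finset.mem_powerset.2 h1, h2⟩) h3
  · have hne : (Finset.range (q + 1)).Nonempty := ⟨0, by simp⟩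
    obtain ⟨v, hv, hv'⟩ := Finset.exists_max_image (Finset.range (q + 1)) (fun v => w v y) hne
    obtain ⟨u, hu, hu'⟩ := hwη y
    have h1 := hv' u (Finset.mem_range.2 (by omega))
    have hvq : v ≤ q := by
      have := Finset.mem_range.1 hv
      omega
    refine ⟨v, hvq, hg.mark y v hvq (by linarith) fun S hS hSy => ?_⟩
    by_contra hvS
    obtain ⟨h2, h3⟩ := Finset.mem_filter.1 hS
    obtain ⟨u', hu'S⟩ := h3
    obtain ⟨h4, h5⟩ := ha3 S y hSy
    have h6 := h5 u' hu'S v hvq hvS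
    have h7 := hv' u' (Finset.mem_range.2 (by have := (h4 u' hu'S).1; omega))
    linarith

end

end Pool.Agent.K7.H35.R
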