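import Pool.Agent.K7.H35.R.Defs

/-!
# Chains and the parametrisation by arc length
-/

set_option autoImplicit false

open Set Topology Filter

namespace Pool.Agent.K7.H35.R

open Pool.Agent.Y489.GE

variable {X : Type} [MetricSpace X]

/-- the length of the first `n` edges -/
def cum (c : ℕ → X) (n : ℕ) : ℝ := ∑ i ∈ Finset.range n, dist (c i) (c (i + 1))

theorem cum_succ (c : ℕ → X) (n : ℕ) : cum c (n + 1) = cum c n + dist (c n) (c (n + 1)) :=
  Finset.sum_range_succ _ _

@[simp] theorem cum_zero (c : ℕ → X) : cum c 0 = 0 := by simp [cum]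

theorem cum_nonneg (c : ℕ → X) (n : ℕ) : 0 ≤ cum c n := Finset.sum_nonneg fun _ _ => dist_nonneg

theorem cum_mono (c : ℕ → X) : Monotone (cum c) :=
  monotone_nat_of_le_succ fun n => by rw [cum_succ]; linarith [dist_nonneg (x := c n) (y := c (n + 1))]

theorem cum_cont {Z : Type} [TopologicalSpace Z] {c : Z → ℕ → X} (hc : Continuous c) (n : ℕ) :
    Continuous fun z => cum (c z) n := by
  unfold cum
  exact continuous_finsetSum _ fun i _ => ((continuous_apply i).comp hc).dist
    ((continuous_apply (i + 1)).comp hc)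

theorem dist_le_cum (c : ℕ → X) {i j : ℕ} (h : i ≤ j) : dist (c i) (c j) ≤ cum c j - cum c i := by
  induction j, h using Nat.le_induction with
  | base => simp
  | succ j _ ih =>
    rw [cum_succ]
    linarith [dist_triangle (c i) (c j) (c (j + 1))]

/-- the point at distance `min σ (dist x y)` from `x` on the geodesic from `x` to `y` -/
noncomputable def adv (m : X → X → ℝ → X) (x y : X) (σ : ℝ) : X := m x y (min 1 (max 0 σ / dist x y))

section

variable {r : ℝ} {m : X → X → ℝ → X}

theorem adv_mem (x y : X) (σ : ℝ) : min 1 (max 0 σ / dist x y) ∈ Icc (0 : ℝ) 1 :=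
  ⟨le_min zero_le_one (div_nonneg (le_max_left _ _) dist_nonneg), min_le_left _ _⟩

theorem adv_zero (hm : GMap X r m) {x y : X} (h : dist x y ≤ r) {σ : ℝ} (hσ : σ ≤ 0) :
    adv m x y σ = x := by
  unfold adv
  rw [max_eq_left hσ, zero_div, min_eq_right zero_le_one, hm.zero x y h]

theorem adv_full (hm : GMap X r m) {x y : X} (h : dist x y ≤ r) {σ : ℝ} (hσ : dist x y ≤ σ) :
    adv m x y σ = y := by
  rcases eq_or_ne x y with rfl | hne
  · unfold adv
    rw [hm.self (by rw [dist_self] at h; exact h) x (adv_mem x x σ)]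
  · unfold adv
    have hd : 0 < dist x y := dist_pos.2 hne
    rw [max_eq_right (hd.le.trans hσ), min_eq_left ((one_le_div hd).2 hσ), hm.one x y h]

theorem adv_dist (hm : GMap X r m) {x y : X} (h : dist x y ≤ r) {σ τ : ℝ}
    (hσ : σ ∈ Icc (0 : ℝ) (dist x y)) (hτ : τ ∈ Icc (0 : ℝ) (dist x y)) :
    dist (adv m x y σ) (adv m x y τ) = |σ - τ| := by
  rcases eq_or_ne x y with rfl | hne
  · have h1 : σ = 0 := by rw [dist_self] at hσ; exact le_antisymm hσ.2 hσ.1
    have h2 : τ = 0 := by rw [dist_self] at hτ; exact le_antisymm hτ.2 hτ.1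
    rw [h1, h2]
    simp
  · have hd : 0 < dist x y := dist_pos.2 hne
    unfold adv
    rw [hm.dist_eq x y h _ (adv_mem x y σ) _ (adv_mem x y τ), max_eq_right hσ.1,
      max_eq_right hτ.1, min_eq_right ((div_le_one hd).2 hσ.2),
      min_eq_right ((div_le_one hd).2 hτ.2), ← sub_div, abs_div, abs_of_pos hd,
      div_mul_cancel₀ _ hd.ne']

theorem adv_clamp (hm : GMap X r m) {x y : X} (h : dist x y ≤ r) (σ : ℝ) :
    adv m x y σ = adv m x y (max 0 (min σ (dist x y))) := by
  rcases le_total σ 0 with h1 | h1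
  · rw [adv_zero hm h h1, adv_zero hm h]
    rw [max_le_iff]
    exact ⟨le_rfl, (min_le_left _ _).trans h1⟩
  · rcases le_total σ (dist x y) with h2 | h2
    · rw [min_eq_left h2, max_eq_right h1]
    · rw [min_eq_right h2, max_eq_right dist_nonneg, adv_full hm h h2, adv_full hm h le_rfl]

theorem clamp_lip (a σ τ : ℝ) (_ha : 0 ≤ a) :
    |max 0 (min σ a) - max 0 (min τ a)| ≤ |σ - τ| := by
  have h1 : |max 0 (min σ a) - max 0 (min τ a)| ≤ |min σ a - min τ a| := by
    have := abs_max_sub_max_le_abs (min σ a) (min τ a) 0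
    rwa [max_comm 0 (min σ a), max_comm 0 (min τ a)]
  have h2 : |min σ a - min τ a| ≤ |σ - τ| := by
    have := abs_min_sub_min_le_max σ a τ a
    simpa using this
  exact h1.trans h2

theorem adv_lip (hm : GMap X r m) {x y : X} (h : dist x y ≤ r) (σ τ : ℝ) :
    dist (adv m x y σ) (adv m x y τ) ≤ |σ - τ| := by
  rw [adv_clamp hm h σ, adv_clamp hm h τ, adv_dist hm h]
  · exact clamp_lip _ _ _ dist_nonneg
  · exact ⟨le_max_left _ _, max_le dist_nonneg (min_le_right _ _)⟩
  · exact ⟨le_max_left _ _, max_le dist_nonneg (min_le_right _ _)⟩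

theorem adv_left (hm : GMap X r m) {x y : X} (h : dist x y ≤ r) (σ : ℝ) :
    dist x (adv m x y σ) ≤ dist x y := by
  have h1 := hm.dist_left h (adv_mem x y σ)
  unfold adv
  rw [h1]
  have := (adv_mem x y σ).2
  nlinarith [dist_nonneg (x := x) (y := y)]

theorem gmap_cont (hm : GMap X r m) {Z : Type} [TopologicalSpace Z] {x y : Z → X} {t : Z → ℝ}
    (hx : Continuous x) (hy : Continuous y) (ht : Continuous t) (hxy : ∀ z, dist (x z) (y z) ≤ r)
    (h01 : ∀ z, t z ∈ Icc (0 : ℝ) 1) : Continuous fun z => m (x z) (y z) (t z) :=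
  hm.cont.comp_continuous (hx.prodMk (hy.prodMk ht)) fun z => ⟨hxy z, h01 z⟩

theorem adv_self (hm : GMap X r m) (hr : 0 ≤ r) (x : X) (σ : ℝ) : adv m x x σ = x :=
  hm.self hr x (adv_mem x x σ)

theorem adv_cont (hm : GMap X r m) (hr : 0 ≤ r) {Z : Type} [TopologicalSpace Z] {x y : Z → X}
    {σ : Z → ℝ} (hx : Continuous x) (hy : Continuous y) (hσ : Continuous σ)
    (hxy : ∀ z, dist (x z) (y z) ≤ r) : Continuous fun z => adv m (x z) (y z) (σ z) := by
  rw [continuous_iff_continuousAt]
  intro z₀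
  rcases eq_or_ne (x z₀) (y z₀) with he | hne
  · have h1 : Tendsto (fun z => dist (x z) (y z) + dist (x z) (x z₀)) (𝓝 z₀) (𝓝 0) := by
      have : Tendsto (fun z => dist (x z) (y z) + dist (x z) (x z₀)) (𝓝 z₀)
          (𝓝 (dist (x z₀) (y z₀) + dist (x z₀) (x z₀))) :=
        ((hx.dist hy).add (hx.dist continuous_const)).tendsto z₀
      have e : dist (x z₀) (y z₀) + dist (x z₀) (x z₀) = 0 := by
        rw [← he, dist_self, add_zero]
      rwa [e] at this
    have h2 : adv m (x z₀) (y z₀) (σ z₀) = x z₀ := by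
      rw [← he, adv_self hm hr]
    show Tendsto _ _ (𝓝 (adv m (x z₀) (y z₀) (σ z₀)))
    rw [h2]
    refine tendsto_iff_dist_tendsto_zero.2 (squeeze_zero (fun z => dist_nonneg) (fun z => ?_) h1)
    have h3 := adv_left hm (hxy z) (σ z)
    have h4 := dist_triangle (adv m (x z) (y z) (σ z)) (x z) (x z₀)
    rw [dist_comm (adv m (x z) (y z) (σ z)) (x z)] at h4
    linarith
  · have hd : dist (x z₀) (y z₀) ≠ 0 := (dist_pos.2 hne).ne'
    have ht : ContinuousAt (fun z => min 1 (max 0 (σ z) / dist (x z) (y z))) z₀ :=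
      continuousAt_const.min ((continuousAt_const.max hσ.continuousAt).div
        (hx.dist hy).continuousAt hd)
    have h1 : Tendsto (fun z => (x z, y z, min 1 (max 0 (σ z) / dist (x z) (y z)))) (𝓝 z₀)
        (𝓝[{q : X × X × ℝ | dist q.1 q.2.1 ≤ r ∧ q.2.2 ∈ Icc (0 : ℝ) 1}]
          (x z₀, y z₀, min 1 (max 0 (σ z₀) / dist (x z₀) (y z₀)))) := by
      refine tendsto_nhdsWithin_iff.2 ⟨?_, Eventually.of_forall fun z => ⟨hxy z, adv_mem _ _ _⟩⟩
      exact hx.continuousAt.prodMk (hy.continuousAt.prodMk ht)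
    exact (hm.cont (x z₀, y z₀, _) ⟨hxy z₀, adv_mem _ _ _⟩).tendsto.comp h1

/-- the path through `c 0, …, c n` parametrised by arc length -/
noncomputable def arc (m : X → X → ℝ → X) (c : ℕ → X) : ℕ → ℝ → X
  | 0, _ => c 0
  | n + 1, s => if s ≤ cum c n then arc m c n s else adv m (c n) (c (n + 1)) (s - cum c n)

theorem arc_ge (hm : GMap X r m) {c : ℕ → X} (hc : ∀ i, dist (c i) (c (i + 1)) ≤ r) (n : ℕ)
    {s : ℝ} (hs : cum c n ≤ s) : arc m c n s = c n := by
  induction n with
  | zero => rfl
  | succ n ih =>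
    rw [cum_succ] at hs
    unfold arc
    split_ifs with h
    · have h1 : dist (c n) (c (n + 1)) = 0 :=
        le_antisymm (by linarith) dist_nonneg
      have h2 : s = cum c n := by linarith
      rw [ih h2.ge, dist_eq_zero.1 h1]
    · exact adv_full hm (hc n) (by linarith)

theorem arc_lip (hm : GMap X r m) {c : ℕ → X} (hc : ∀ i, dist (c i) (c (i + 1)) ≤ r) (n : ℕ)
    (s t : ℝ) : dist (arc m c n s) (arc m c n t) ≤ |s - t| := by
  induction n generalizing s t with
  | zero => simp [arc]
  | succ n ih =>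
    have key : ∀ s t : ℝ, s ≤ t → dist (arc m c (n + 1) s) (arc m c (n + 1) t) ≤ t - s := by
      intro s t hst
      simp only [arc]
      split_ifs with h1 h2 h2
      · exact (ih s t).trans (by rw [abs_sub_comm, abs_of_nonneg (by linarith)])
      · push Not at h2
        have h3 := ih s (cum c n)
        rw [arc_ge hm hc n le_rfl, abs_sub_comm, abs_of_nonneg (by linarith)] at h3
        have h4 := adv_lip hm (hc n) 0 (t - cum c n)
        rw [adv_zero hm (hc n) le_rfl, zero_sub, abs_neg, abs_of_nonneg (by linarith)] at h4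
        linarith [dist_triangle (arc m c n s) (c n) (adv m (c n) (c (n + 1)) (t - cum c n))]
      · exact absurd (hst.trans h2) h1
      · refine (adv_lip hm (hc n) _ _).trans ?_
        rw [abs_sub_comm, abs_of_nonneg (by linarith)]
        linarith
    rcases le_total s t with h | h
    · rw [abs_sub_comm, abs_of_nonneg (by linarith)]
      exact key s t h
    · rw [abs_of_nonneg (by linarith), dist_comm]
      exact key t s h

theorem arc_cum (hm : GMap X r m) {c : ℕ → X} (hc : ∀ i, dist (c i) (c (i + 1)) ≤ r) {i n : ℕ}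
    (h : i ≤ n) : arc m c n (cum c i) = c i := by
  induction n, h using Nat.le_induction with
  | base => exact arc_ge hm hc i le_rfl
  | succ n hn ih =>
    unfold arc
    rw [if_pos (cum_mono c hn), ih]

theorem arc_cont (hm : GMap X r m) (hr : 0 ≤ r) {Z : Type} [TopologicalSpace Z] {c : Z → ℕ → X}
    (hc : Continuous c) (hcr : ∀ z i, dist (c z i) (c z (i + 1)) ≤ r) {s : Z → ℝ}
    (hs : Continuous s) (n : ℕ) : Continuous fun z => arc m (c z) n (s z) := by
  induction n with
  | zero => exact (continuous_apply 0).comp hc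
  | succ n ih =>
    simp only [arc]
    refine Continuous.if_le ih ?_ hs (cum_cont hc n) ?_
    · exact adv_cont hm hr ((continuous_apply n).comp hc) ((continuous_apply (n + 1)).comp hc)
        (hs.sub (cum_cont hc n)) fun z => hcr z n
    · intro z hz
      rw [arc_ge hm (hcr z) n hz.ge, adv_zero hm (hcr z n) (by rw [hz]; simp)]

theorem arc_const (hm : GMap X r m) (hr : 0 ≤ r) (p : X) (n : ℕ) (s : ℝ) :
    arc m (fun _ => p) n s = p := by
  induction n with
  | zero => rfl
  | succ n ih =>
    unfold arc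
    rw [ih, adv_self hm hr, ite_self]

end

end Pool.Agent.K7.H35.R
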