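import Pool.Agent.Y489.GE.Stm

/-!
# Reflections: definitions
-/

set_option autoImplicit false

open Set Topology

namespace Pool.Agent.K7.H35.R

open Pool.Agent.Y489.GE

/-- The distance is locally convex: `p`, `q` denote points which divide the minimal geodesics
`[x, y]`, respectively `[x', y']`, in the ratio `t : (1 - t)`. For a closed Riemannian manifold the three
inequalities hold for some `r, κ > 0`, `C ≥ 0`: in small balls the distance from a point is convex and
its square is uniformly convex, and the distance of two moving points is semiconvex. -/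
structure LocConv (X : Type) [MetricSpace X] (r κ C : ℝ) : Prop where
  conv : ∀ z x y p : X, ∀ t ∈ Icc (0 : ℝ) 1, dist z x < r → dist z y < r → dist x y < r →
    dist x p = t * dist x y → dist p y = (1 - t) * dist x y →
    dist z p ≤ (1 - t) * dist z x + t * dist z y
  strong : ∀ z x y p : X, ∀ t ∈ Icc (0 : ℝ) 1, dist z x < r → dist z y < r → dist x y < r →
    dist x p = t * dist x y → dist p y = (1 - t) * dist x y →
    dist z p ^ 2 ≤ (1 - t) * dist z x ^ 2 + t * dist z y ^ 2 - κ * (t * (1 - t) * dist x y ^ 2)
  joint : ∀ x y p x' y' q : X, ∀ t ∈ Icc (0 : ℝ) 1, dist x y < r → dist x' y' < r →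
    dist x x' < r → dist y y' < r →
    dist x p = t * dist x y → dist p y = (1 - t) * dist x y →
    dist x' q = t * dist x' y' → dist q y' = (1 - t) * dist x' y' →
    dist p q ≤ (1 - t) * dist x x' + t * dist y y' +
      C * (t * (1 - t) * (dist x y ^ 2 + dist x' y' ^ 2))

/-- a point at the proportion `t` on a minimal geodesic -/
theorem exists_frac {X : Type} [MetricSpace X] (hX : GeodSpace X) (x y : X) {t : ℝ}
    (ht : t ∈ Icc (0 : ℝ) 1) :
    ∃ p, dist x p = t * dist x y ∧ dist p y = (1 - t) * dist x y := by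
  obtain ⟨c, h0, h1, h2⟩ := hX x y
  refine ⟨c t, ?_, ?_⟩
  · have := h2 0 ⟨le_rfl, zero_le_one⟩ t ht
    rwa [h0, zero_sub, abs_neg, abs_of_nonneg ht.1] at this
  · have := h2 t ht 1 ⟨zero_le_one, le_rfl⟩
    rwa [h1, abs_sub_comm, abs_of_nonneg (by linarith [ht.2])] at this

theorem uniq {X : Type} [MetricSpace X] {r κ C : ℝ} (hX : GeodSpace X) (hκ : 0 < κ)
    (h : LocConv X r κ C) : UniqGeod X (r / 2) := by
  intro x y z w hxy hz hw hzw
  by_contra hne
  have hd : 0 < dist z w := dist_pos.2 hne
  have hhalf : (1 / 2 : ℝ) ∈ Icc (0 : ℝ) 1 := ⟨by norm_num, by norm_num⟩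
  obtain ⟨q, q1, q2⟩ := exists_frac hX z w hhalf
  have a1 : dist x z ≤ dist x y := by linarith [dist_nonneg (x := z) (y := y)]
  have b1 : dist z y ≤ dist x y := by linarith [dist_nonneg (x := x) (y := z)]
  have a2 : dist w y = dist z y := by linarith
  have a3 : dist z w ≤ dist z x + dist x w := dist_triangle _ _ _
  rw [dist_comm z x] at a3
  have h1 := h.strong x z w q (1 / 2) hhalf (by linarith [dist_nonneg (x := x) (y := y)])
    (by linarith [dist_nonneg (x := x) (y := y)]) (by linarith) q1 q2
  have h2 := h.strong y z w q (1 / 2) hhalf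
    (by rw [dist_comm y z]; linarith [dist_nonneg (x := x) (y := y)])
    (by rw [dist_comm y w]; linarith [dist_nonneg (x := x) (y := y)]) (by linarith) q1 q2
  rw [dist_comm y z, dist_comm y w, a2] at h2
  rw [← hzw] at h1
  have h3 : 0 < κ * (1 / 2 * (1 - 1 / 2) * dist z w ^ 2) := by positivity
  have h4 : dist x q < dist x z := by
    apply lt_of_pow_lt_pow_left₀ 2 dist_nonneg
    linarith
  have h5 : dist y q < dist z y := by
    apply lt_of_pow_lt_pow_left₀ 2 dist_nonneg
    linarith
  have h6 := dist_triangle x q y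
  rw [dist_comm q y] at h6
  linarith

end Pool.Agent.K7.H35.R
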