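import Pool.Agent.K7.H35.R.Prox

/-!
# Flows on spaces of chains
-/

set_option autoImplicit false

open Set Topology Filter

namespace Pool.Agent.K7.H35.R

open Pool.Agent.Y489.GE

variable {X : Type} [MetricSpace X]

/-- the nearest number in the unit interval -/
noncomputable def cl (s : ℝ) : ℝ := max 0 (min s 1)

theorem cl_mem (s : ℝ) : cl s ∈ Icc (0 : ℝ) 1 :=
  ⟨le_max_left _ _, max_le zero_le_one (min_le_right _ _)⟩

theorem cl_cont : Continuous cl := by
  unfold cl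
  fun_prop

theorem cl_of_le {s : ℝ} (h : s ≤ 0) : cl s = 0 := by
  unfold cl
  rw [min_eq_left (h.trans zero_le_one), max_eq_left h]

theorem cl_of_ge {s : ℝ} (h : 1 ≤ s) : cl s = 1 := by
  unfold cl
  rw [min_eq_right h, max_eq_right zero_le_one]

theorem cl_of_mem {s : ℝ} (h : s ∈ Icc (0 : ℝ) 1) : cl s = s := by
  unfold cl
  rw [min_eq_left h.2, max_eq_right h.1]

/-- length decreasing flows -/
structure Fl (N : ℕ) (D : Set (ℕ → X)) (P : (ℕ → X) → ℝ → (ℕ → X)) : Prop where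
  cont : ContinuousOn (fun q : (ℕ → X) × ℝ => P q.1 q.2) (D ×ˢ Icc (0 : ℝ) 1)
  zero : ∀ c ∈ D, P c 0 = c
  mem : ∀ c ∈ D, ∀ t ∈ Icc (0 : ℝ) 1, P c t ∈ D
  cum_le : ∀ c ∈ D, ∀ t ∈ Icc (0 : ℝ) 1, cum (P c t) N ≤ cum c N
  const : ∀ x, (fun _ => x) ∈ D → ∀ t ∈ Icc (0 : ℝ) 1, P (fun _ => x) t = fun _ => x

theorem Fl.id (N : ℕ) (D : Set (ℕ → X)) : Fl N D (fun c _ => c) :=
  ⟨continuous_fst.continuousOn, fun _ _ => rfl, fun _ h _ _ => h, fun _ _ _ _ => le_rfl,
    fun _ _ _ _ => rfl⟩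

theorem Fl.comp {N : ℕ} {D : Set (ℕ → X)} {P Q : (ℕ → X) → ℝ → (ℕ → X)} (hP : Fl N D P)
    (hQ : Fl N D Q) : Fl N D (fun c t => Q (P c (cl (2 * t))) (cl (2 * t - 1))) := by
  have hm : ∀ c ∈ D, ∀ t, P c (cl t) ∈ D := fun c hc t => hP.mem c hc _ (cl_mem t)
  refine ⟨?_, ?_, fun c hc t _ => hQ.mem _ (hm c hc _) _ (cl_mem _), ?_, ?_⟩
  · have h1 : ContinuousOn (fun q : (ℕ → X) × ℝ => P q.1 (cl (2 * q.2))) (D ×ˢ Icc (0 : ℝ) 1) := by
      have : ContinuousOn (fun q : (ℕ → X) × ℝ => ((q.1, cl (2 * q.2)) : (ℕ → X) × ℝ))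
          (D ×ˢ Icc (0 : ℝ) 1) := by
        apply Continuous.continuousOn
        exact continuous_fst.prodMk (cl_cont.comp (continuous_const.mul continuous_snd))
      exact hP.cont.comp this fun q hq => ⟨hq.1, cl_mem _⟩
    have h2 : ContinuousOn (fun q : (ℕ → X) × ℝ => ((P q.1 (cl (2 * q.2)), cl (2 * q.2 - 1)) :
        (ℕ → X) × ℝ)) (D ×ˢ Icc (0 : ℝ) 1) := by
      refine h1.prodMk (Continuous.continuousOn ?_)
      exact cl_cont.comp ((continuous_const.mul continuous_snd).sub continuous_const)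
    exact hQ.cont.comp h2 fun q hq => ⟨hm _ hq.1 _, cl_mem _⟩
  · intro c hc
    rw [mul_zero, zero_sub, cl_of_le le_rfl, cl_of_le (by norm_num), hP.zero c hc, hQ.zero c hc]
  · intro c hc t _
    exact (hQ.cum_le _ (hm c hc _) _ (cl_mem _)).trans (hP.cum_le c hc _ (cl_mem _))
  · intro x hx t _
    rw [hP.const x hx _ (cl_mem _), hQ.const x hx _ (cl_mem _)]

/-- if the flow decreases the length of all the chains of length at least `ε`, then its iterates
make all chains short -/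
theorem Fl.short {N : ℕ} {D : Set (ℕ → X)} {P : (ℕ → X) → ℝ → (ℕ → X)} (hP : Fl N D P)
    (hD : IsCompact D) {L : ℝ} (hL : ∀ c ∈ D, cum c N ≤ L) {ε : ℝ}
    (hdec : ∀ c ∈ D, ε ≤ cum c N → cum (P c 1) N < cum c N) :
    ∃ Q, Fl N D Q ∧ ∀ c ∈ D, cum (Q c 1) N ≤ ε := by
  have h1 : (1 : ℝ) ∈ Icc (0 : ℝ) 1 := ⟨zero_le_one, le_rfl⟩
  obtain ⟨δ, hδ, hδ'⟩ : ∃ δ : ℝ, 0 < δ ∧ ∀ c ∈ D, ε ≤ cum c N → cum (P c 1) N ≤ cum c N - δ := by
    rcases (D ∩ {c | ε ≤ cum c N}).eq_empty_or_nonempty with he | hne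
    · refine ⟨1, one_pos, fun c hc hce => ?_⟩
      exact absurd (show c ∈ D ∩ {c | ε ≤ cum c N} from ⟨hc, hce⟩) (by rw [he]; simp)
    · have hcp : IsCompact (D ∩ {c : ℕ → X | ε ≤ cum c N}) :=
        hD.inter_right (isClosed_le continuous_const (cum_cont continuous_id N))
      have hco : ContinuousOn (fun c : ℕ → X => cum c N - cum (P c 1) N)
          (D ∩ {c : ℕ → X | ε ≤ cum c N}) := by
        refine (cum_cont continuous_id N).continuousOn.sub ?_
        refine (cum_cont continuous_id N).comp_continuousOn (f := fun c => P c 1) ?_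
        have : ContinuousOn (fun c : ℕ → X => ((c, 1) : (ℕ → X) × ℝ))
            (D ∩ {c : ℕ → X | ε ≤ cum c N}) := (continuous_id.prodMk continuous_const).continuousOn
        exact hP.cont.comp this fun c hc => ⟨hc.1, h1⟩
      obtain ⟨c₀, hc₀, hmin⟩ := hcp.exists_isMinOn hne hco
      refine ⟨cum c₀ N - cum (P c₀ 1) N, by linarith [hdec c₀ hc₀.1 hc₀.2], fun c hc hce => ?_⟩
      have := hmin (show c ∈ D ∩ {c | ε ≤ cum c N} from ⟨hc, hce⟩)
      simp only [mem_ofPred_eq] at this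
      linarith
  have key : ∀ n : ℕ, ∃ Q, Fl N D Q ∧ ∀ c ∈ D, cum (Q c 1) N ≤ max ε (cum c N - n * δ) := by
    intro n
    induction n with
    | zero => exact ⟨_, Fl.id N D, fun c _ => by simp⟩
    | succ n ih =>
      obtain ⟨Q, hQ, hQ'⟩ := ih
      refine ⟨_, hQ.comp hP, fun c hc => ?_⟩
      have e1 : cl (2 * 1) = 1 := cl_of_ge (by norm_num)
      have e2 : cl (2 * 1 - 1) = 1 := cl_of_ge (by norm_num)
      simp only [e1, e2]
      have h2 := hQ' c hc
      have h3 := hQ.mem c hc 1 h1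
      have h4 := hP.cum_le _ h3 1 h1
      rcases le_total ε (cum (Q c 1) N) with h5 | h5
      · have h6 := hδ' _ h3 h5
        rcases le_total ε (cum c N - n * δ) with h7 | h7
        · rw [max_eq_right h7] at h2
          refine le_max_of_le_right ?_
          push_cast
          linarith
        · rw [max_eq_left h7] at h2
          exact le_max_of_le_left (by linarith)
      · exact le_max_of_le_left (h4.trans h5)
  obtain ⟨n, hn⟩ := exists_nat_ge ((L - ε) / δ)
  obtain ⟨Q, hQ, hQ'⟩ := key n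
  refine ⟨Q, hQ, fun c hc => (hQ' c hc).trans (max_le le_rfl ?_)⟩
  rw [div_le_iff₀ hδ] at hn
  linarith [hL c hc]

/-! ### reparametrisation -/

/-- the values of the arc length after the reparametrisation -/
noncomputable def tau (K : ℕ) (c : ℕ → X) (i : ℕ) : ℝ :=
  cum c (K * (i / K)) + ((i % K : ℕ) : ℝ) * ((cum c (K * (i / K + 1)) - cum c (K * (i / K))) / K)

theorem tau_mul {K : ℕ} (hK : 0 < K) (c : ℕ → X) (v : ℕ) : tau K c (K * v) = cum c (K * v) := by
  unfold tau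
  rw [Nat.mul_mod_right, Nat.mul_div_cancel_left v hK]
  simp

theorem tau_succ {K : ℕ} (hK : 0 < K) (c : ℕ → X) (i : ℕ) :
    tau K c (i + 1) = tau K c i + (cum c (K * (i / K + 1)) - cum c (K * (i / K))) / K := by
  have hK' : (K : ℝ) ≠ 0 := by positivity
  have hi := Nat.div_add_mod i K
  have hlt := Nat.mod_lt i hK
  rcases Nat.lt_or_ge (i % K + 1) K with h | h
  · have e1 : (i + 1) / K = i / K := by
      conv_lhs => rw [← hi]
      rw [add_assoc, Nat.mul_add_div hK, Nat.div_eq_of_lt h, add_zero]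
    have e2 : (i + 1) % K = i % K + 1 := by
      conv_lhs => rw [← hi]
      rw [add_assoc, Nat.mul_add_mod, Nat.mod_eq_of_lt h]
    unfold tau
    rw [e1, e2]
    push_cast
    ring
  · have h' : i % K + 1 = K := by omega
    have e0 : i + 1 = K * (i / K + 1) := by rw [mul_add, mul_one]; omega
    have e3 : ((i % K : ℕ) : ℝ) = K - 1 := by
      have : ((i % K + 1 : ℕ) : ℝ) = K := by rw [h']
      push_cast at this
      linarith
    rw [e0, tau_mul hK]
    unfold tau
    rw [e3]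
    field_simp
    ring

theorem cum_stab {c : ℕ → X} {N : ℕ} (h : ∀ i, N ≤ i → c i = c N) {j : ℕ} (hj : N ≤ j) :
    cum c j = cum c N := by
  induction j, hj using Nat.le_induction with
  | base => rfl
  | succ j hj ih => rw [cum_succ, ih, h j hj, h (j + 1) (by omega), dist_self, add_zero]

theorem cum_le_N {c : ℕ → X} {N : ℕ} (h : ∀ i, N ≤ i → c i = c N) (j : ℕ) :
    cum c j ≤ cum c N := by
  rcases le_total j N with h1 | h1
  · exact cum_mono c h1
  · exact (cum_stab h h1).le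

theorem tau_cont (K : ℕ) {Z : Type} [TopologicalSpace Z] {c : Z → ℕ → X} (hc : Continuous c)
    (i : ℕ) : Continuous fun z => tau K (c z) i := by
  unfold tau
  exact (cum_cont hc _).add (continuous_const.mul (((cum_cont hc _).sub (cum_cont hc _)).div_const
    _))

/-- the reparametrisation -/
noncomputable def Rp (m : X → X → ℝ → X) (N K : ℕ) (c : ℕ → X) (h : ℝ) : ℕ → X :=
  fun i => arc m c N ((1 - h) * cum c i + h * tau K c i)

section

variable {r : ℝ} {m : X → X → ℝ → X}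

theorem rp_mark (hm : GMap X r m) {N K : ℕ} (hK : 0 < K) {c : ℕ → X}
    (hc : ∀ i, dist (c i) (c (i + 1)) ≤ r) (hN : ∀ i, N ≤ i → c i = c N) (h : ℝ) (v : ℕ) :
    Rp m N K c h (K * v) = c (K * v) := by
  unfold Rp
  rw [tau_mul hK]
  have e : (1 - h) * cum c (K * v) + h * cum c (K * v) = cum c (K * v) := by ring
  rw [e]
  rcases le_total (K * v) N with h1 | h1
  · exact arc_cum hm hc h1
  · rw [arc_ge hm hc N (cum_mono c h1), hN _ h1]

theorem rp_zero (hm : GMap X r m) {N K : ℕ} {c : ℕ → X}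
    (hc : ∀ i, dist (c i) (c (i + 1)) ≤ r) (hN : ∀ i, N ≤ i → c i = c N) : Rp m N K c 0 = c := by
  funext i
  unfold Rp
  rw [sub_zero, one_mul, zero_mul, add_zero]
  rcases le_total i N with h1 | h1
  · exact arc_cum hm hc h1
  · rw [arc_ge hm hc N (cum_mono c h1), hN _ h1]

theorem rp_stab (hm : GMap X r m) {q K : ℕ} (hK : 0 < K) {c : ℕ → X}
    (hc : ∀ i, dist (c i) (c (i + 1)) ≤ r) (hN : ∀ i, K * q ≤ i → c i = c (K * q)) {h : ℝ}
    (hh : h ∈ Icc (0 : ℝ) 1) {i : ℕ} (hi : K * q ≤ i) :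
    Rp m (K * q) K c h i = Rp m (K * q) K c h (K * q) := by
  rw [rp_mark hm hK hc hN]
  unfold Rp
  apply arc_ge hm hc
  have h1 : cum c (K * q) ≤ cum c i := cum_mono c hi
  have h2 : cum c (K * q) ≤ tau K c i := by
    unfold tau
    have h3 : q ≤ i / K := by
      rw [Nat.le_div_iff_mul_le hK, mul_comm]
      exact hi
    have h4 : cum c (K * q) ≤ cum c (K * (i / K)) := cum_mono c (Nat.mul_le_mul_left K h3)
    have h5 : cum c (K * (i / K)) ≤ cum c (K * (i / K + 1)) :=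
      cum_mono c (Nat.mul_le_mul_left K (Nat.le_succ _))
    have h6 : 0 ≤ ((i % K : ℕ) : ℝ) * ((cum c (K * (i / K + 1)) - cum c (K * (i / K))) / K) :=
      mul_nonneg (Nat.cast_nonneg _) (div_nonneg (by linarith) (Nat.cast_nonneg _))
    linarith
  nlinarith [hh.1, hh.2]

theorem rp_edge (hm : GMap X r m) {N K : ℕ} (hK : 0 < K) {c : ℕ → X}
    (hc : ∀ i, dist (c i) (c (i + 1)) ≤ r) {h : ℝ} (hh : h ∈ Icc (0 : ℝ) 1) (i : ℕ) :
    dist (Rp m N K c h i) (Rp m N K c h (i + 1)) ≤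
      (1 - h) * dist (c i) (c (i + 1)) +
        h * ((cum c (K * (i / K + 1)) - cum c (K * (i / K))) / K) := by
  unfold Rp
  refine (arc_lip hm hc N _ _).trans ?_
  rw [tau_succ hK, cum_succ, abs_sub_comm]
  have h5 : cum c (K * (i / K)) ≤ cum c (K * (i / K + 1)) :=
    cum_mono c (Nat.mul_le_mul_left K (Nat.le_succ _))
  have h6 : 0 ≤ (cum c (K * (i / K + 1)) - cum c (K * (i / K))) / K :=
    div_nonneg (by linarith) (Nat.cast_nonneg _)
  rw [abs_of_nonneg]
  · linarith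
  · have := mul_nonneg (show 0 ≤ 1 - h by linarith [hh.2]) (dist_nonneg (x := c i) (y := c (i + 1)))
    have := mul_nonneg hh.1 h6
    linarith

theorem cum_le_of {w : ℕ → X} {s : ℕ → ℝ} (h : ∀ i, dist (w i) (w (i + 1)) ≤ s (i + 1) - s i)
    (n : ℕ) : cum w n ≤ s n - s 0 := by
  induction n with
  | zero => simp
  | succ n ih => rw [cum_succ]; linarith [h n]

theorem rp_cum (hm : GMap X r m) {q K : ℕ} (hK : 0 < K) {c : ℕ → X}
    (hc : ∀ i, dist (c i) (c (i + 1)) ≤ r) {h : ℝ} (hh : h ∈ Icc (0 : ℝ) 1) :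
    cum (Rp m (K * q) K c h) (K * q) ≤ cum c (K * q) := by
  have h1 := cum_le_of (w := Rp m (K * q) K c h)
    (s := fun i => (1 - h) * cum c i + h * tau K c i) (fun i => by
      refine (rp_edge hm hK hc hh i).trans (le_of_eq ?_)
      rw [tau_succ hK, cum_succ]
      ring) (K * q)
  have h2 : tau K c (K * q) = cum c (K * q) := tau_mul hK c q
  have h3 : tau K c 0 = 0 := by
    have := tau_mul hK c 0
    rw [mul_zero, cum_zero] at this
    exact this
  rw [h2, h3, cum_zero] at h1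
  linarith

theorem rp_cont (hm : GMap X r m) (hr : 0 ≤ r) (N K : ℕ) {D : Set (ℕ → X)}
    (hD : ∀ c ∈ D, ∀ i, dist (c i) (c (i + 1)) ≤ r) :
    ContinuousOn (fun q : (ℕ → X) × ℝ => Rp m N K q.1 q.2) (D ×ˢ Icc (0 : ℝ) 1) := by
  rw [continuousOn_iff_continuous_domRestrict]
  have hc : Continuous fun z : ↥(D ×ˢ Icc (0 : ℝ) 1) => z.1.1 :=
    continuous_fst.comp continuous_subtype_val
  have hh : Continuous fun z : ↥(D ×ˢ Icc (0 : ℝ) 1) => z.1.2 :=
    continuous_snd.comp continuous_subtype_val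
  refine continuous_pi fun i => ?_
  exact arc_cont hm hr hc (fun z i => hD _ z.2.1 i)
    (((continuous_const.sub hh).mul (cum_cont hc i)).add (hh.mul (tau_cont K hc i))) N

theorem rp_const (hm : GMap X r m) (hr : 0 ≤ r) (N K : ℕ) (p : X) (h : ℝ) :
    Rp m N K (fun _ => p) h = fun _ => p := by
  funext i
  exact arc_const hm hr p N _

end

end Pool.Agent.K7.H35.R
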