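import Pool.Agent.K7.H35.R.Flow

/-!
# The initial family of chains
-/

set_option autoImplicit false

open Set Topology Filter

namespace Pool.Agent.K7.H35.R

open Pool.Agent.Y489.GE

variable {X Y : Type} [MetricSpace X] [TopologicalSpace Y]

/-- curves of speed at most one which begin in `F` -/
def PF (F : Set X) (d : ℝ → X) : Prop := (∀ s t, dist (d s) (d t) ≤ |s - t|) ∧ d 0 ∈ F

/-- the local data: `q + 1` weights and families of paths from `F` -/
def DataF (F : Set X) (b : ℝ) (q : ℕ) (f : Y → X) (A : Set Y) (t : ℕ → Y → ℝ)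
    (ρ : ℕ → Y → ℝ → X) : Prop :=
  (∀ j, Continuous (t j)) ∧ (∀ j k, 0 ≤ t j k) ∧ (∀ k, ∃ j, j ≤ q ∧ 0 < t j k) ∧
  (∀ j, ContinuousOn (ρ j) {k | 0 < t j k}) ∧
  (∀ j k, 0 < t j k → PF F (ρ j k) ∧ ρ j k b = f k) ∧
  ∀ j, ∀ k ∈ A, 0 < t j k → ρ j k = fun _ => f k

/-- the path from `f y` backwards -/
noncomputable def leg (b θ : ℝ) (f : Y → X) (t : Y → ℝ) (ρ : Y → ℝ → X) (y : Y) (s : ℝ) : X :=
  open Classical in if 0 < t y then ρ y (b - s * (min 1 (t y / θ)) * b) else f y

section

variable {F : Set X} {b θ : ℝ} {f : Y → X} {t : Y → ℝ} {ρ : Y → ℝ → X}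

omit [TopologicalSpace Y] in
theorem leg_dist (hb : 0 ≤ b) (hθ : 0 < θ) (hρ : ∀ y, 0 < t y → PF F (ρ y) ∧ ρ y b = f y)
    (y : Y) (s s' : ℝ) : dist (leg b θ f t ρ y s) (leg b θ f t ρ y s') ≤ |s - s'| * b := by
  unfold leg
  split_ifs with h
  · refine ((hρ y h).1.1 _ _).trans ?_
    have e : b - s * (min 1 (t y / θ)) * b - (b - s' * (min 1 (t y / θ)) * b) =
        (s' - s) * ((min 1 (t y / θ)) * b) := by ring
    have h1 : 0 ≤ min 1 (t y / θ) := le_min zero_le_one (div_nonneg h.le hθ.le)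
    have h2 : min 1 (t y / θ) ≤ 1 := min_le_left _ _
    rw [e, abs_mul, abs_sub_comm, abs_of_nonneg (mul_nonneg h1 hb)]
    refine mul_le_mul_of_nonneg_left ?_ (abs_nonneg _)
    nlinarith
  · rw [dist_self]
    positivity

omit [TopologicalSpace Y] in
theorem leg_zero (hρ : ∀ y, 0 < t y → PF F (ρ y) ∧ ρ y b = f y) (y : Y) :
    leg b θ f t ρ y 0 = f y := by
  unfold leg
  split_ifs with h
  · rw [zero_mul, zero_mul, sub_zero]
    exact (hρ y h).2
  · rfl

omit [TopologicalSpace Y] in
theorem leg_one (hθ : 0 < θ) (hρ : ∀ y, 0 < t y → PF F (ρ y) ∧ ρ y b = f y) {y : Y}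
    (hy : θ < t y) : leg b θ f t ρ y 1 ∈ F := by
  unfold leg
  have h : 0 < t y := hθ.trans hy
  rw [if_pos h, min_eq_left ((one_le_div hθ).2 hy.le)]
  have e : b - 1 * 1 * b = 0 := by ring
  rw [e]
  exact (hρ y h).1.2

theorem leg_cont (hb : 0 ≤ b) (hθ : 0 < θ) (hf : Continuous f) (ht : Continuous t)
    (ht0 : ∀ y, 0 ≤ t y) (hρc : ContinuousOn ρ {y | 0 < t y})
    (hρ : ∀ y, 0 < t y → PF F (ρ y) ∧ ρ y b = f y) (s : ℝ) :
    Continuous fun y => leg b θ f t ρ y s := by
  classical
  rw [continuous_iff_continuousAt]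
  intro y₀
  rcases (ht0 y₀).eq_or_lt with h0 | h0
  · -- near a zero of `t`
    have h1 : leg b θ f t ρ y₀ s = f y₀ := by
      unfold leg
      rw [if_neg (by rw [← h0]; exact lt_irrefl _)]
    have h2 : ∀ y, dist (leg b θ f t ρ y s) (f y) ≤ |s| * (min 1 (t y / θ)) * b := by
      intro y
      unfold leg
      split_ifs with h
      · have h3 := (hρ y h).1.1 (b - s * (min 1 (t y / θ)) * b) b
        rw [(hρ y h).2] at h3
        refine h3.trans (le_of_eq ?_)
        have e : b - s * (min 1 (t y / θ)) * b - b = -(s * ((min 1 (t y / θ)) * b)) := by ring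
        have h4 : 0 ≤ min 1 (t y / θ) := le_min zero_le_one (div_nonneg h.le hθ.le)
        rw [e, abs_neg, abs_mul, abs_of_nonneg (mul_nonneg h4 hb)]
        ring
      · rw [dist_self]
        have h4 : 0 ≤ min 1 (t y / θ) := le_min zero_le_one (div_nonneg (ht0 y) hθ.le)
        positivity
    have h3 : Tendsto (fun y => |s| * (min 1 (t y / θ)) * b + dist (f y) (f y₀)) (𝓝 y₀) (𝓝 0) := by
      have h4 : Continuous fun y => |s| * (min 1 (t y / θ)) * b + dist (f y) (f y₀) := by
        fun_prop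
      have h5 := h4.tendsto y₀
      have e : |s| * (min 1 (t y₀ / θ)) * b + dist (f y₀) (f y₀) = 0 := by
        rw [← h0, zero_div, min_eq_right zero_le_one, dist_self]
        ring
      rwa [e] at h5
    show Tendsto _ _ (𝓝 (leg b θ f t ρ y₀ s))
    rw [h1]
    refine tendsto_iff_dist_tendsto_zero.2 (squeeze_zero (fun y => dist_nonneg) (fun y => ?_) h3)
    exact (dist_triangle _ (f y) _).trans (add_le_add (h2 y) le_rfl)
  · have hU : {y | 0 < t y} ∈ 𝓝 y₀ := (isOpen_lt continuous_const ht).mem_nhds h0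
    have h1 : ContinuousAt (fun y => ρ y (b - s * (min 1 (t y / θ)) * b)) y₀ := by
      have h2 := eval_within (S := {y | 0 < t y}) (z₀ := y₀) (F := ρ)
        (τ := fun y => b - s * (min 1 (t y / θ)) * b) h0 (hρc y₀ h0)
        (fun z hz => (hρ z hz).1.1) (by
          apply Continuous.continuousWithinAt
          fun_prop)
      exact h2.continuousAt hU
    refine h1.congr ?_
    filter_upwards [hU] with y hy
    unfold leg
    rw [if_pos hy]

end

/-- the initial chains -/
noncomputable def ini (k q : ℕ) (P : ℕ → Y → ℝ → X) (y : Y) (i : ℕ) : X :=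
  if min i (2 * k * q) % (2 * k) ≤ k then
    P (min i (2 * k * q) / (2 * k)) y (1 - (min i (2 * k * q) % (2 * k) : ℕ) / k)
  else P (min i (2 * k * q) / (2 * k) + 1) y
    (((min i (2 * k * q) % (2 * k) : ℕ) - k) / k)

omit [TopologicalSpace Y] in
theorem ini_edge {k q : ℕ} (hk : 0 < k) {P : ℕ → Y → ℝ → X} {b : ℝ} {f : Y → X} (y : Y)
    (hP : ∀ v s s', dist (P v y s) (P v y s') ≤ |s - s'| * b) (hP0 : ∀ v, P v y 0 = f y) (i : ℕ) :
    dist (ini k q P y i) (ini k q P y (i + 1)) ≤ b / k := by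
  have hk' : (0 : ℝ) < k := by exact_mod_cast hk
  have hb : 0 ≤ b := by
    have := hP 0 0 1
    rw [zero_sub, abs_neg, abs_one, one_mul] at this
    exact dist_nonneg.trans this
  rcases Nat.lt_or_ge i (2 * k * q) with h | h
  · have e1 : min i (2 * k * q) = i := by omega
    have e2 : min (i + 1) (2 * k * q) = i + 1 := by omega
    unfold ini
    rw [e1, e2]
    set j := i % (2 * k) with hj
    set v := i / (2 * k) with hv
    have hi : 2 * k * v + j = i := Nat.div_add_mod i (2 * k)
    have hlt : j < 2 * k := Nat.mod_lt i (by omega)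
    rcases Nat.lt_or_ge (j + 1) (2 * k) with h1 | h1
    · have e3 : (i + 1) / (2 * k) = v := by
        rw [← hi, add_assoc, Nat.mul_add_div (by omega), Nat.div_eq_of_lt h1, add_zero]
      have e4 : (i + 1) % (2 * k) = j + 1 := by
        rw [← hi, add_assoc, Nat.mul_add_mod, Nat.mod_eq_of_lt h1]
      rw [e3, e4]
      rcases Nat.lt_or_ge j k with h2 | h2
      · rw [if_pos h2.le, if_pos (show j + 1 ≤ k by omega)]
        refine (hP _ _ _).trans (le_of_eq ?_)
        have : (1 : ℝ) - (j : ℝ) / k - (1 - ((j + 1 : ℕ) : ℝ) / k) = 1 / k := by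
          push_cast
          field_simp
          ring
        rw [this, abs_of_pos (by positivity)]
        ring
      · rw [if_neg (show ¬ j + 1 ≤ k by omega)]
        have e5 : (if j ≤ k then P v y (1 - (j : ℝ) / k) else P (v + 1) y (((j : ℕ) - k) / k)) =
            P (v + 1) y (((j : ℕ) - k) / k) := by
          rcases Nat.eq_or_lt_of_le h2 with h3 | h3
          · rw [if_pos h3.ge, ← h3, div_self hk'.ne', sub_self, sub_self, zero_div, hP0, hP0]
          · rw [if_neg (show ¬ j ≤ k by omega)]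
        rw [e5]
        refine (hP _ _ _).trans (le_of_eq ?_)
        have : ((j : ℝ) - k) / k - (((j + 1 : ℕ) : ℝ) - k) / k = - (1 / k) := by
          push_cast
          field_simp
          ring
        rw [this, abs_neg, abs_of_pos (by positivity)]
        ring
    · have h2 : j + 1 = 2 * k := by omega
      have e0 : i + 1 = 2 * k * (v + 1) := by rw [mul_add, mul_one]; omega
      have e3 : (i + 1) / (2 * k) = v + 1 := by
        rw [e0, Nat.mul_div_cancel_left _ (by omega)]
      have e4 : (i + 1) % (2 * k) = 0 := by rw [e0, Nat.mul_mod_right]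
      rw [e3, e4, if_pos (Nat.zero_le k)]
      have ej : (j : ℝ) = 2 * k - 1 := by
        have : ((j + 1 : ℕ) : ℝ) = ((2 * k : ℕ) : ℝ) := by rw [h2]
        push_cast at this
        linarith
      rcases Nat.lt_or_ge k j with h3 | h3
      · rw [if_neg (show ¬ j ≤ k by omega)]
        refine (hP _ _ _).trans (le_of_eq ?_)
        rw [ej]
        have : (2 * (k : ℝ) - 1 - k) / k - (1 - ((0 : ℕ) : ℝ) / k) = - (1 / k) := by
          push_cast
          field_simp
          ring
        rw [this, abs_neg, abs_of_pos (by positivity)]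
        ring
      · have hk1 : k = 1 := by omega
        have hj1 : j = 1 := by omega
        rw [if_pos h3, hj1, hk1]
        have e5 : (1 : ℝ) - ((1 : ℕ) : ℝ) / ((1 : ℕ) : ℝ) = 0 := by norm_num
        rw [e5, hP0, ← hP0 (v + 1)]
        refine (hP _ _ _).trans (le_of_eq ?_)
        norm_num
  · have e1 : min i (2 * k * q) = 2 * k * q := by omega
    have e2 : min (i + 1) (2 * k * q) = 2 * k * q := by omega
    unfold ini
    rw [e1, e2, dist_self]
    positivity

/-- the initial family -/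
theorem init [CompactSpace Y] {F : Set X} {b : ℝ} (hb : 0 ≤ b) {q : ℕ} (hq : 1 ≤ q) {f : Y → X}
    (hf : Continuous f) {A : Set Y} {t : ℕ → Y → ℝ}
    {ρ : ℕ → Y → ℝ → X} (hD : DataF F b q f A t ρ) {k : ℕ} (hk : 0 < k) :
    ∃ (w : ℕ → Y → ℝ) (η : ℝ) (c : Y → ℕ → X), 0 < η ∧ (∀ v, Continuous (w v)) ∧
      (∀ v y, 0 ≤ w v y) ∧ (∀ y, ∃ v ≤ q, η ≤ w v y) ∧ Continuous c ∧
      (∀ y i, 2 * k * q ≤ i → c y i = c y (2 * k * q)) ∧
      (∀ y i, dist (c y i) (c y (i + 1)) ≤ b / k) ∧
      (∀ y v, v ≤ q → 0 < w v y → c y (2 * k * v) ∈ F) ∧ (∀ y, c y k = f y) ∧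
      ∀ y ∈ A, c y = fun _ => f y := by
  classical
  obtain ⟨d1, d2, d3, d4, d5, d6⟩ := hD
  -- a uniform lower bound of the largest weight
  obtain ⟨θ, hθ, hθ'⟩ : ∃ θ : ℝ, 0 < θ ∧ ∀ y, ∃ v ≤ q, 2 * θ ≤ t v y := by
    rcases isEmpty_or_nonempty Y with hE | hE
    · exact ⟨1, one_pos, fun y => (hE.false y).elim⟩
    · have hne : (Finset.range (q + 1)).Nonempty := ⟨0, by simp⟩
      have hc : Continuous fun y => (Finset.range (q + 1)).sup' hne fun v => t v y :=
        Continuous.finset_sup'_apply hne fun v _ => d1 v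
      obtain ⟨y₀, -, hy₀⟩ := isCompact_univ.exists_isMinOn (univ_nonempty (α := Y)) hc.continuousOn
      have h0 : 0 < (Finset.range (q + 1)).sup' hne fun v => t v y₀ := by
        obtain ⟨v, hv, hv'⟩ := d3 y₀
        exact (Finset.lt_sup'_iff hne).2 ⟨v, Finset.mem_range.2 (by omega), hv'⟩
      refine ⟨((Finset.range (q + 1)).sup' hne fun v => t v y₀) / 2, by positivity, fun y => ?_⟩
      have h1 := hy₀ (mem_univ y)
      obtain ⟨v, hv, hv'⟩ := Finset.exists_mem_eq_sup' hne fun v => t v y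
      refine ⟨v, by rw [Finset.mem_range] at hv; omega, ?_⟩
      rw [← hv']
      have h2 : ((Finset.range (q + 1)).sup' hne fun v => t v y₀) ≤
        ((Finset.range (q + 1)).sup' hne fun v => t v y) := h1
      linarith
  set P : ℕ → Y → ℝ → X := fun v => leg b θ f (t v) (ρ v) with hP
  have hPd : ∀ y v s s', dist (P v y s) (P v y s') ≤ |s - s'| * b := fun y v s s' =>
    leg_dist hb hθ (d5 v) y s s'
  have hP0 : ∀ y v, P v y 0 = f y := fun y v => leg_zero (d5 v) y
  have hPc : ∀ v s, Continuous fun y => P v y s := fun v s =>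
    leg_cont hb hθ hf (d1 v) (d2 v) (d4 v) (d5 v) s
  have hk' : (k : ℝ) ≠ 0 := by positivity
  refine ⟨fun v y => max 0 (t v y - θ), θ, ini k q P, hθ, fun v => by fun_prop,
    fun v y => le_max_left _ _, fun y => ?_, ?_, fun y i hi => ?_,
    fun y i => ini_edge hk y (hPd y) (hP0 y) i, fun y v hv hw => ?_, fun y => ?_, fun y hy => ?_⟩
  · obtain ⟨v, hv, hv'⟩ := hθ' y
    exact ⟨v, hv, le_max_of_le_right (by linarith)⟩
  · refine continuous_pi fun i => ?_
    unfold ini
    split_ifs
    · exact hPc _ _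
    · exact hPc _ _
  · unfold ini
    rw [min_eq_right hi, min_self]
  · have h1 : θ < t v y := by
      by_contra hcon
      push Not at hcon
      have : max 0 (t v y - θ) = 0 := max_eq_left (by linarith)
      simp only [this] at hw
      exact lt_irrefl _ hw
    unfold ini
    have e1 : min (2 * k * v) (2 * k * q) = 2 * k * v := min_eq_left (Nat.mul_le_mul_left _ hv)
    rw [e1, Nat.mul_mod_right, Nat.mul_div_cancel_left _ (by omega), if_pos (Nat.zero_le _)]
    have e2 : (1 : ℝ) - ((0 : ℕ) : ℝ) / k = 1 := by simp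
    rw [e2]
    exact leg_one hθ (d5 v) h1
  · unfold ini
    have e1 : min k (2 * k * q) = k := min_eq_left (by nlinarith)
    have e3 : k % (2 * k) = k := Nat.mod_eq_of_lt (by omega)
    rw [e1, e3, if_pos le_rfl, div_self hk', sub_self, hP0]
  · have h1 : ∀ v s, P v y s = f y := by
      intro v s
      show leg b θ f (t v) (ρ v) y s = f y
      unfold leg
      split_ifs with h
      · rw [d6 v y hy h]
      · rfl
    funext i
    unfold ini
    rw [h1, h1, ite_self]

end Pool.Agent.K7.H35.R
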