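import Pool.Agent.K7.H35.R.Step

/-!
# The joints of stationary chains
-/

set_option autoImplicit false

open Set Topology Filter

namespace Pool.Agent.K7.H35.R

open Pool.Agent.Y489.GE

variable {X : Type} [MetricSpace X]

/-- the symmetries: `F` is the fixed point set of the isometric involution `ι`, and is fixed
pointwise by `G` -/
structure Sym (X : Type) [MetricSpace X] (r : ℝ) (F : Set X) (G : Subgroup (X ≃ᵢ X))
    (ι : X ≃ᵢ X) : Prop where
  inv : ∀ x, ι (ι x) = x
  fix : ∀ x, ι x = x → x ∈ F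
  mem : ι ∈ G
  pt : ∀ g ∈ G, ∀ z ∈ F, g z = z
  comm : ∀ g ∈ G, ∀ x, ι (g x) = g (ι x)
  cross : ∀ y ∈ F, ∀ u w : X, dist y u < r → dist y w < r →
    ∃ g ∈ G, ∃ z ∈ F, dist u z + dist z (g w) = dist u (g w)

/-- the variation of a cluster -/
noncomputable def vary (c : ℕ → X) (N lo n : ℕ) (z : X) : ℕ → X :=
  open Classical in fun i => if lo ≤ i ∧ (i ≤ n ∨ N ≤ n) then z else c i

theorem vary_cum {c : ℕ → X} {N lo n : ℕ} {y : X} (z : X) (hlo : lo ≤ n) (hloN : lo ≤ N)
    (hI : ∀ i, lo ≤ i → (i ≤ n ∨ N ≤ n) → c i = y) :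
    cum (vary c N lo n z) N = cum c N +
      (if 0 < lo then dist (c (lo - 1)) z - dist (c (lo - 1)) y else 0) +
      (if n < N then dist z (c (n + 1)) - dist y (c (n + 1)) else 0) := by
  classical
  have key : ∀ i ∈ Finset.range N, dist (vary c N lo n z i) (vary c N lo n z (i + 1)) =
      dist (c i) (c (i + 1)) +
        (if i = lo - 1 then (if 0 < lo then dist (c (lo - 1)) z - dist (c (lo - 1)) y else 0)
          else 0) + (if i = n then dist z (c (n + 1)) - dist y (c (n + 1)) else 0) := by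
    intro i hi
    rw [Finset.mem_range] at hi
    unfold vary
    by_cases h1 : lo ≤ i ∧ (i ≤ n ∨ N ≤ n)
    · rw [if_pos h1]
      by_cases h2 : lo ≤ i + 1 ∧ (i + 1 ≤ n ∨ N ≤ n)
      · rw [if_pos h2, hI i h1.1 h1.2, hI (i + 1) h2.1 h2.2, dist_self, dist_self,
          if_neg (show ¬ i = n by omega)]
        by_cases h3 : i = lo - 1
        · rw [if_pos h3, if_neg (show ¬ 0 < lo by omega)]
          ring
        · rw [if_neg h3]
          ring
      · have h3 : i = n := by omega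
        subst h3
        rw [if_neg h2, if_pos rfl, hI i h1.1 h1.2]
        by_cases h3 : i = lo - 1
        · rw [if_pos h3, if_neg (show ¬ 0 < lo by omega)]
          ring
        · rw [if_neg h3]
          ring
    · rw [if_neg h1]
      by_cases h2 : lo ≤ i + 1 ∧ (i + 1 ≤ n ∨ N ≤ n)
      · have h3 : i = lo - 1 := by omega
        have h4 : 0 < lo := by omega
        rw [if_pos h2, if_pos h3, if_pos h4, if_neg (show ¬ i = n by omega),
          hI (i + 1) h2.1 h2.2, ← h3]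
        ring
      · rw [if_neg h2, if_neg (show ¬ i = n by omega)]
        by_cases h3 : i = lo - 1
        · rw [if_pos h3, if_neg (show ¬ 0 < lo by omega)]
          ring
        · rw [if_neg h3]
          ring
  have h0 : cum (vary c N lo n z) N =
    ∑ i ∈ Finset.range N, dist (vary c N lo n z i) (vary c N lo n z (i + 1)) := rfl
  rw [h0, Finset.sum_congr rfl key, Finset.sum_add_distrib, Finset.sum_add_distrib,
    Finset.sum_ite_eq', Finset.sum_ite_eq']
  have h1 : cum c N = ∑ i ∈ Finset.range N, dist (c i) (c (i + 1)) := rfl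
  rw [← h1]
  congr 1
  · congr 1
    by_cases h2 : 0 < lo
    · rw [if_pos (Finset.mem_range.2 (by omega))]
    · rw [if_neg h2, ite_self]
  · simp only [Finset.mem_range]

theorem vary_sq {c : ℕ → X} {N lo n : ℕ} {y : X} (z : X)
    (hI : ∀ i, lo ≤ i → (i ≤ n ∨ N ≤ n) → c i = y) :
    sq N c (vary c N lo n z) ≤ (N + 1) * dist y z ^ 2 := by
  classical
  have h : ∀ i ∈ Finset.range (N + 1), dist (c i) (vary c N lo n z i) ^ 2 ≤ dist y z ^ 2 := by
    intro i _
    unfold vary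
    split_ifs with h1
    · rw [hI i h1.1 h1.2]
    · rw [dist_self, zero_pow two_ne_zero]
      positivity
  have h2 := Finset.sum_le_sum h
  rw [Finset.sum_const, Finset.card_range, nsmul_eq_mul] at h2
  push_cast at h2
  exact h2

omit [MetricSpace X] in
theorem vary_adm {F : Set X} {M : Set ℕ} {c : ℕ → X} {N lo n : ℕ} {z : X} (hloN : lo ≤ N)
    (hc : c ∈ Adm F N M) (hz : ∀ i ∈ M, lo ≤ i → (i ≤ n ∨ N ≤ n) → z ∈ F) :
    vary c N lo n z ∈ Adm F N M := by
  classical
  constructor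
  · intro i hi
    unfold vary
    by_cases h : N ≤ n
    · rw [if_pos ⟨by omega, Or.inr h⟩, if_pos ⟨hloN, Or.inr h⟩]
    · rw [if_neg (by omega), if_neg (by omega), hc.1 i hi]
  · intro i hi
    unfold vary
    split_ifs with h
    · exact hz i hi h.1 h.2
    · exact hc.2 i hi

/-- a linear function with a quadratic error -/
theorem nonneg_of_quad {x B : ℝ} (hB : 0 ≤ B)
    (h : ∀ t : ℝ, 0 < t → t ≤ 1 → 0 ≤ t * x + B * t ^ 2) : 0 ≤ x := by
  by_contra hx
  push Not at hx
  set t : ℝ := min 1 (-x / (2 * (B + 1))) with ht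
  have h0 : 0 < t := lt_min one_pos (div_pos (by linarith) (by linarith))
  have h1 : t ≤ 1 := min_le_left _ _
  have h2 : t ≤ -x / (2 * (B + 1)) := min_le_right _ _
  rw [le_div_iff₀ (by linarith)] at h2
  have h3 := h t h0 h1
  have h4 : 0 ≤ t * (x + B * t) := by linarith
  have h5 : 0 ≤ x + B * t := nonneg_of_mul_nonneg_right h4 h0
  nlinarith

section

variable {r κ C : ℝ} {m : X → X → ℝ → X}

/-- the first variation of one edge -/
theorem arm (hm : GMap X (r / 4) m) (hl : LocConv X r κ C) (_hr : 0 < r) {p y u z : X} {η : ℝ}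
    (hη : 0 < η) (hηr : η ≤ r / 4) (h1 : dist p u = dist p y - η) (h2 : dist u y = η)
    (hz : dist y z ≤ r / 4) {t : ℝ} (ht : t ∈ Icc (0 : ℝ) 1) :
    dist p (m y z t) ≤ dist p y + t * (dist u z - η) := by
  have h3 := hl.conv u y z (m y z t) t ht (by linarith) (by linarith [dist_triangle u y z])
    (by linarith) (hm.dist_left hz ht) (hm.dist_right hz ht)
  have h4 := dist_triangle p u (m y z t)
  rw [h2] at h3
  linarith

variable {F : Set X} {A L ρ e : ℝ} {K q : ℕ}

/-- the inner joint: the inequality -/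
theorem joint_le (hr : 0 < r) (hm : GMap X (r / 4) m) (hl : LocConv X r κ C)
    (hFc : ∀ x ∈ F, ∀ y ∈ F, dist x y ≤ r / 4 → ∀ t ∈ Icc (0 : ℝ) 1, m x y t ∈ F)
    (hA : 0 ≤ A) {N : ℕ} {M : Set ℕ} {c : ℕ → X} (hc : c ∈ Adm F N M) (hs : Stat F A N M c)
    {a n : ℕ} (han : a < n) (hnN : n < N) (hI : ∀ i, a + 1 ≤ i → i ≤ n → c i = c n)
    {η : ℝ} (hη : 0 < η) (hηr : η ≤ r / 4) {u w z : X} (hu1 : dist (c a) u = dist (c a) (c n) - η)
    (hu2 : dist u (c n) = η) (hw1 : dist (c (n + 1)) w = dist (c (n + 1)) (c n) - η)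
    (hw2 : dist w (c n) = η) (hz : dist (c n) z ≤ r / 4)
    (hzM : ∀ i ∈ M, a + 1 ≤ i → i ≤ n → z ∈ F) : 2 * η ≤ dist u z + dist z w := by
  have hI' : ∀ i, a + 1 ≤ i → (i ≤ n ∨ N ≤ n) → c i = c n := fun i h1 h2 => hI i h1 (by omega)
  have h : 0 ≤ dist u z + dist z w - 2 * η := by
    refine nonneg_of_quad (B := A * ((N + 1) * dist (c n) z ^ 2)) (by positivity)
      fun t ht0 ht1 => ?_
    have ht : t ∈ Icc (0 : ℝ) 1 := ⟨ht0.le, ht1⟩
    have e1 := arm hm hl hr hη hηr hu1 hu2 hz ht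
    have e2 := arm hm hl hr hη hηr hw1 hw2 hz ht
    have hadm : vary c N (a + 1) n (m (c n) z t) ∈ Adm F N M := by
      refine vary_adm (by omega) hc fun i hi h1 h2 => ?_
      have h3 : c n ∈ F := by
        rw [← hI' i h1 h2]
        exact hc.2 i hi
      exact hFc _ h3 _ (hzM i hi h1 (by omega)) hz t ht
    have e3 := hs _ hadm
    rw [vary_cum (y := c n) _ (by omega) (by omega) hI', if_pos (by omega), if_pos hnN,
      Nat.add_sub_cancel] at e3
    have e4 := mul_le_mul_of_nonneg_left (vary_sq (N := N) (m (c n) z t) hI') hA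
    rw [hm.dist_left hz ht] at e4
    rw [dist_comm (c (n + 1)) (m (c n) z t), dist_comm (c (n + 1)) (c n)] at e2
    rw [dist_comm z w]
    nlinarith
  linarith

/-- the first joint: the inequality -/
theorem start_le (hr : 0 < r) (hm : GMap X (r / 4) m) (hl : LocConv X r κ C)
    (hFc : ∀ x ∈ F, ∀ y ∈ F, dist x y ≤ r / 4 → ∀ t ∈ Icc (0 : ℝ) 1, m x y t ∈ F)
    (hA : 0 ≤ A) {N : ℕ} {M : Set ℕ} {c : ℕ → X} (hc : c ∈ Adm F N M) (hs : Stat F A N M c)
    {n : ℕ} (hnN : n < N) (hI : ∀ i, i ≤ n → c i = c n)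
    {η : ℝ} (hη : 0 < η) (hηr : η ≤ r / 4) {w z : X}
    (hw1 : dist (c (n + 1)) w = dist (c (n + 1)) (c n) - η)
    (hw2 : dist w (c n) = η) (hz : dist (c n) z ≤ r / 4)
    (hzM : ∀ i ∈ M, i ≤ n → z ∈ F) : η ≤ dist w z := by
  have hI' : ∀ i, 0 ≤ i → (i ≤ n ∨ N ≤ n) → c i = c n := fun i h1 h2 => hI i (by omega)
  have h : 0 ≤ dist w z - η := by
    refine nonneg_of_quad (B := A * ((N + 1) * dist (c n) z ^ 2)) (by positivity)
      fun t ht0 ht1 => ?_
    have ht : t ∈ Icc (0 : ℝ) 1 := ⟨ht0.le, ht1⟩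
    have e2 := arm hm hl hr hη hηr hw1 hw2 hz ht
    have hadm : vary c N 0 n (m (c n) z t) ∈ Adm F N M := by
      refine vary_adm (by omega) hc fun i hi h1 h2 => ?_
      have h3 : c n ∈ F := by
        rw [← hI' i h1 h2]
        exact hc.2 i hi
      exact hFc _ h3 _ (hzM i hi (by omega)) hz t ht
    have e3 := hs _ hadm
    rw [vary_cum (y := c n) _ (by omega) (by omega) hI', if_neg (by omega), if_pos hnN] at e3
    have e4 := mul_le_mul_of_nonneg_left (vary_sq (N := N) (m (c n) z t) hI') hA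
    rw [hm.dist_left hz ht] at e4
    rw [dist_comm (c (n + 1)) (m (c n) z t), dist_comm (c (n + 1)) (c n)] at e2
    nlinarith
  linarith

/-- the last joint: the inequality -/
theorem end_le (hr : 0 < r) (hm : GMap X (r / 4) m) (hl : LocConv X r κ C)
    (hFc : ∀ x ∈ F, ∀ y ∈ F, dist x y ≤ r / 4 → ∀ t ∈ Icc (0 : ℝ) 1, m x y t ∈ F)
    (hA : 0 ≤ A) {N : ℕ} {M : Set ℕ} {c : ℕ → X} (hc : c ∈ Adm F N M) (hs : Stat F A N M c)
    {a : ℕ} (haN : a < N) (hI : ∀ i, a + 1 ≤ i → c i = c N)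
    {η : ℝ} (hη : 0 < η) (hηr : η ≤ r / 4) {u z : X} (hu1 : dist (c a) u = dist (c a) (c N) - η)
    (hu2 : dist u (c N) = η) (hz : dist (c N) z ≤ r / 4)
    (hzM : ∀ i ∈ M, a + 1 ≤ i → z ∈ F) : η ≤ dist u z := by
  have hI' : ∀ i, a + 1 ≤ i → (i ≤ N ∨ N ≤ N) → c i = c N := fun i h1 _ => hI i h1
  have h : 0 ≤ dist u z - η := by
    refine nonneg_of_quad (B := A * ((N + 1) * dist (c N) z ^ 2)) (by positivity)
      fun t ht0 ht1 => ?_
    have ht : t ∈ Icc (0 : ℝ) 1 := ⟨ht0.le, ht1⟩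
    have e2 := arm hm hl hr hη hηr hu1 hu2 hz ht
    have hadm : vary c N (a + 1) N (m (c N) z t) ∈ Adm F N M := by
      refine vary_adm (by omega) hc fun i hi h1 h2 => ?_
      have h3 : c N ∈ F := by
        rw [← hI' i h1 h2]
        exact hc.2 i hi
      exact hFc _ h3 _ (hzM i hi h1) hz t ht
    have e3 := hs _ hadm
    rw [vary_cum (y := c N) _ (by omega) (by omega) hI', if_pos (by omega),
      if_neg (lt_irrefl N), Nat.add_sub_cancel] at e3
    have e4 := mul_le_mul_of_nonneg_left (vary_sq (N := N) (m (c N) z t) hI') hA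
    rw [hm.dist_left hz ht] at e4
    nlinarith
  linarith

end

end Pool.Agent.K7.H35.R
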