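import Pool.Agent.K7.H35.R.Init
import Pool.Agent.K7.H35.R.Stat
import Pool.Agent.Y911.GE.SET

/-!
# Symmetries, and weights and families of paths from the fixed point set
-/

set_option autoImplicit false

open Set Topology Filter

namespace Pool.Agent.K7.H35.R

open Pool.Agent.Y489.GE Pool.Agent.Y911.GE

variable {X : Type} [MetricSpace X]

theorem Sym.closed {r : ℝ} {F : Set X} {G : Subgroup (X ≃ᵢ X)} {ι : X ≃ᵢ X}
    (hS : Sym X r F G ι) : IsClosed F := by
  have : F = {x | ι x = x} := by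
    ext x
    exact ⟨fun h => hS.pt ι hS.mem x h, fun h => hS.fix x h⟩
  rw [this]
  exact isClosed_eq ι.continuous continuous_id

theorem Sym.conv {r : ℝ} {F : Set X} {G : Subgroup (X ≃ᵢ X)} {ι : X ≃ᵢ X} {m : X → X → ℝ → X}
    (hr : 0 < r) (hm : GMap X (r / 4) m) (hU : UniqGeod X (r / 2)) (hS : Sym X r F G ι) :
    ∀ x ∈ F, ∀ y ∈ F, dist x y ≤ r / 4 → ∀ t ∈ Icc (0 : ℝ) 1, m x y t ∈ F := by
  intro x hx y hy hxy t ht
  have h1 := hm.dist_left hxy ht
  have h2 := hm.dist_right hxy ht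
  have h3 : dist x (ι (m x y t)) = t * dist x y := by
    have := ι.dist_eq x (m x y t)
    rw [hS.pt ι hS.mem x hx] at this
    rw [this, h1]
  have h4 : dist (ι (m x y t)) y = (1 - t) * dist x y := by
    have := ι.dist_eq (m x y t) y
    rw [hS.pt ι hS.mem y hy] at this
    rw [this, h2]
  refine hS.fix _ (hU x y _ _ (by linarith) ?_ ?_ ?_)
  · rw [h3, h4]; ring
  · rw [h1, h2]; ring
  · rw [h3, h1]

/-- points near to `F` are moved into `F` -/
theorem Sym.mid {r : ℝ} {F : Set X} {G : Subgroup (X ≃ᵢ X)} {ι : X ≃ᵢ X} {m : X → X → ℝ → X}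
    (hr : 0 < r) (hm : GMap X (r / 4) m) (hU : UniqGeod X (r / 2)) (hS : Sym X r F G ι) (w : X)
    (hw : dist w (ι w) ≤ r / 4) : m w (ι w) (1 / 2) ∈ F := by
  have hh : (1 / 2 : ℝ) ∈ Icc (0 : ℝ) 1 := ⟨by norm_num, by norm_num⟩
  have h1 := hm.dist_left hw hh
  have h2 := hm.dist_right hw hh
  have w1 : dist w (ι (m w (ι w) (1 / 2))) = 1 / 2 * dist w (ι w) := by
    have := ι.dist_eq (ι w) (m w (ι w) (1 / 2))
    rw [hS.inv] at this
    rw [this, dist_comm, h2]
    ring
  have w2 : dist (ι (m w (ι w) (1 / 2))) (ι w) = 1 / 2 * dist w (ι w) := by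
    rw [ι.dist_eq, dist_comm, h1]
  refine hS.fix _ (hU w (ι w) _ _ (by linarith) ?_ ?_ ?_)
  · rw [w1, w2]; ring
  · rw [h1, h2]; ring
  · rw [w1, h1]

theorem dataF_exists {Y : Type} [MetricSpace Y] [CompactSpace Y] {q : ℕ} (hq : CovDim Y q)
    {r : ℝ} {F : Set X} {G : Subgroup (X ≃ᵢ X)} {ι : X ≃ᵢ X} {m : X → X → ℝ → X}
    (hr : 0 < r) (hm : GMap X (r / 4) m) (hU : UniqGeod X (r / 2)) (hS : Sym X r F G ι) {D : ℝ}
    (hD : 0 ≤ D) (hpath : ∀ x : X, ∃ z ∈ F, ∃ c ∈ Pa z D, c D = x) {ε : ℝ} (hε : 0 < ε)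
    (hεr : ε ≤ r / 8) (f : Y → X) (hf : Continuous f) (A : Set Y) (hA : ∀ k ∈ A, f k ∈ F) :
    ∃ (t : ℕ → Y → ℝ) (ρ : ℕ → Y → ℝ → X), DataF F (D + ε) q f A t ρ := by
  classical
  rcases isEmpty_or_nonempty Y with hE | hE
  · exact ⟨fun _ _ => 0, fun _ y => (hE.false y).elim, fun _ => continuous_const,
      fun _ _ => le_rfl, fun y => (hE.false y).elim, fun _ y => (hE.false y).elim,
      fun _ y => (hE.false y).elim, fun _ y => (hE.false y).elim⟩
  obtain ⟨y₀⟩ := hE
  have hb : 0 < D + ε := by linarith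
  have hu := CompactSpace.uniformContinuous_of_continuous hf
  rw [Metric.uniformContinuous_iff] at hu
  obtain ⟨δ, hδ, hfδ⟩ := hu ε hε
  obtain ⟨n, U, hUo, hUd, hUc, hUq⟩ := hq (δ / 2) (by positivity)
  have hfU : ∀ i, ∀ x ∈ U i, ∀ y ∈ U i, dist (f x) (f y) ≤ ε := by
    intro i x hx y hy
    exact (hfδ (lt_of_le_of_lt (hUd i x hx y hy) (by linarith))).le
  have hbump : ∀ i, ∃ φ : Y → ℝ, Continuous φ ∧ (∀ k, 0 ≤ φ k) ∧ ∀ k, 0 < φ k ↔ k ∈ U i :=
    fun i => bump (U i) (hUo i)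
  choose φ hφc hφ0 hφU using hbump
  have hfam : ∀ i, ∃ R : Y → ℝ → X, ContinuousOn R (U i) ∧
      (∀ k ∈ U i, PF F (R k) ∧ R k (D + ε) = f k) ∧
      ∀ k ∈ A, k ∈ U i → R k = fun _ => f k := by
    intro i
    by_cases h : ∃ k₁, k₁ ∈ U i ∧ k₁ ∈ A
    · obtain ⟨k₁, h1, h2⟩ := h
      have hd : ∀ k ∈ U i, dist (f k) (ι (f k)) ≤ 2 * ε := by
        intro k hk
        have h3 := hfU i k hk k₁ h1
        have h4 : dist (f k₁) (ι (f k)) = dist (f k₁) (f k) := by
          have := ι.dist_eq (f k₁) (f k)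
          rwa [hS.pt ι hS.mem _ (hA k₁ h2)] at this
        have h5 := dist_triangle (f k) (f k₁) (ι (f k))
        rw [h4, dist_comm (f k₁) (f k)] at h5
        linarith
      have hd4 : ∀ k ∈ U i, dist (f k) (ι (f k)) ≤ r / 4 := fun k hk =>
        (hd k hk).trans (by linarith)
      have hsI : ∀ s : ℝ, (1 - cl (s / (D + ε))) / 2 ∈ Icc (0 : ℝ) 1 := by
        intro s
        have := cl_mem (s / (D + ε))
        exact ⟨by linarith [this.2], by linarith [this.1]⟩
      refine ⟨fun k s => m (f k) (ι (f k)) ((1 - cl (s / (D + ε))) / 2), ?_, ?_, ?_⟩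
      · rw [continuousOn_pi]
        intro s
        have h3 : ContinuousOn (fun k : Y => ((f k, ι (f k), (1 - cl (s / (D + ε))) / 2) :
            X × X × ℝ)) (U i) := by
          apply Continuous.continuousOn
          exact hf.prodMk ((ι.continuous.comp hf).prodMk continuous_const)
        exact hm.cont.comp h3 fun k hk => ⟨hd4 k hk, hsI s⟩
      · intro k hk
        refine ⟨⟨fun s t => ?_, ?_⟩, ?_⟩
        · rw [hm.dist_eq _ _ (hd4 k hk) _ (hsI s) _ (hsI t)]
          have h3 : |(1 - cl (s / (D + ε))) / 2 - (1 - cl (t / (D + ε))) / 2| ≤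
              |s - t| / (D + ε) / 2 := by
            have e : (1 - cl (s / (D + ε))) / 2 - (1 - cl (t / (D + ε))) / 2 =
                -(cl (s / (D + ε)) - cl (t / (D + ε))) / 2 := by ring
            rw [e, abs_div, abs_neg, abs_of_pos (by norm_num : (0 : ℝ) < 2)]
            have h4 := clamp_lip 1 (s / (D + ε)) (t / (D + ε)) zero_le_one
            have e2 : s / (D + ε) - t / (D + ε) = (s - t) / (D + ε) := by ring
            rw [e2, abs_div, abs_of_pos hb] at h4
            unfold cl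
            linarith
          have h5 : dist (f k) (ι (f k)) ≤ 2 * (D + ε) := (hd k hk).trans (by linarith)
          calc _ ≤ |s - t| / (D + ε) / 2 * (2 * (D + ε)) :=
                mul_le_mul h3 h5 dist_nonneg (by positivity)
            _ = |s - t| := by field_simp
        · show m (f k) (ι (f k)) ((1 - cl (0 / (D + ε))) / 2) ∈ F
          rw [zero_div, cl_of_le le_rfl, sub_zero]
          exact hS.mid hr hm hU _ (hd4 k hk)
        · show m (f k) (ι (f k)) ((1 - cl ((D + ε) / (D + ε))) / 2) = f k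
          rw [div_self hb.ne', cl_of_ge le_rfl, sub_self, zero_div]
          exact hm.zero _ _ (hd4 k hk)
      · intro k hk _
        funext s
        show m (f k) (ι (f k)) _ = f k
        rw [hS.pt ι hS.mem _ (hA k hk)]
        exact hm.self (by linarith) _ (hsI s)
    · by_cases hne : ∃ k₁, k₁ ∈ U i
      · obtain ⟨k₁, h1⟩ := hne
        obtain ⟨z, hz, c, hc, hcD⟩ := hpath (f k₁)
        obtain ⟨R, R1, R2, R3⟩ := fam (r / 4) m hm z D ε hD hε (by linarith) f hf (U i) (f k₁) c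
          hc hcD (fun k hk => hfU i k₁ h1 k hk)
        refine ⟨R, R1, fun k hk => ⟨⟨(R2 k hk).1.1, ?_⟩, (R2 k hk).2⟩,
          fun k hk hk' => (h ⟨k, hk', hk⟩).elim⟩
        rw [(R2 k hk).1.2.1 0 le_rfl]
        exact hz
      · exact ⟨fun k _ => f k, continuousOn_of_forall_continuousAt fun k hk => (hne ⟨k, hk⟩).elim,
          fun k hk => (hne ⟨k, hk⟩).elim, fun _ _ _ => rfl⟩
  have hS' : ∀ S : Finset (Fin n), ∃ R : Y → ℝ → X, S.Nonempty →
      (ContinuousOn R {k | 0 < wt φ S k} ∧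
      (∀ k, 0 < wt φ S k → PF F (R k) ∧ R k (D + ε) = f k) ∧
      ∀ k ∈ A, 0 < wt φ S k → R k = fun _ => f k) := by
    intro S
    by_cases hne : S.Nonempty
    · obtain ⟨i, hi⟩ := hne
      obtain ⟨R, R1, R2, R3⟩ := hfam i
      have hin : ∀ k, 0 < wt φ S k → k ∈ U i := by
        intro k hk
        rw [wt_pos φ hφ0] at hk
        exact (hφU i k).1 (hk i hi).1
      exact ⟨R, fun _ => ⟨R1.mono fun k hk => hin k hk, fun k hk => R2 k (hin k hk),
        fun k hk hk' => R3 k hk (hin k hk')⟩⟩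
    · exact ⟨fun k _ => f k, fun h => (hne h).elim⟩
  choose R hR using hS'
  have hcardne : ∀ (S : Finset (Fin n)) (j : ℕ), S.card = j + 1 → S.Nonempty := by
    intro S j h
    rw [← Finset.card_pos]
    omega
  -- the weights and the families
  let t : ℕ → Y → ℝ := fun j k => ∑ S ∈ Finset.univ.filter
    (fun S : Finset (Fin n) => S.card = j + 1), wt φ S k
  let ρ : ℕ → Y → ℝ → X := fun j k =>
    if h : ∃ S : Finset (Fin n), S.card = j + 1 ∧ 0 < wt φ S k then R h.choose k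
    else fun _ => f k
  have htpos : ∀ j k, 0 < t j k ↔ ∃ S : Finset (Fin n), S.card = j + 1 ∧ 0 < wt φ S k := by
    intro j k
    constructor
    · intro h
      by_contra hn
      push Not at hn
      have : t j k ≤ 0 := Finset.sum_nonpos fun S hS => hn S (Finset.mem_filter.1 hS).2
      linarith
    · rintro ⟨S, h1, h2⟩
      exact Finset.sum_pos' (fun T _ => wt_nonneg φ hφ0 T k)
        ⟨S, Finset.mem_filter.2 ⟨Finset.mem_univ _, h1⟩, h2⟩
  have hρ : ∀ j k (S : Finset (Fin n)), S.card = j + 1 → 0 < wt φ S k → ρ j k = R S k := by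
    intro j k S h1 h2
    have hex : ∃ S : Finset (Fin n), S.card = j + 1 ∧ 0 < wt φ S k := ⟨S, h1, h2⟩
    show (if h : ∃ S : Finset (Fin n), S.card = j + 1 ∧ 0 < wt φ S k then R h.choose k
      else fun _ => f k) = R S k
    rw [dif_pos hex]
    have := hex.choose_spec
    rw [wt_uniq φ hφ0 hex.choose S (this.1.trans h1.symm) k this.2 h2]
  refine ⟨t, ρ, ?_, ?_, ?_, ?_, ?_, ?_⟩
  · intro j
    exact continuous_finsetSum _ fun S _ => wt_cont φ hφc S
  · intro j k
    exact Finset.sum_nonneg fun S _ => wt_nonneg φ hφ0 S k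
  · intro k
    have hcard := hUq k
    rw [Nat.card_eq_fintype_card, Fintype.card_subtype] at hcard
    obtain ⟨i, hi⟩ := hUc k
    have hpos : 0 < (Finset.univ.filter fun i : Fin n => k ∈ U i).card :=
      Finset.card_pos.2 ⟨i, Finset.mem_filter.2 ⟨Finset.mem_univ _, hi⟩⟩
    refine ⟨(Finset.univ.filter fun i : Fin n => k ∈ U i).card - 1, by omega, ?_⟩
    rw [htpos]
    refine ⟨Finset.univ.filter fun i : Fin n => k ∈ U i, by omega, ?_⟩
    rw [wt_pos φ hφ0]
    intro i hi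
    have hi' := (Finset.mem_filter.1 hi).2
    refine ⟨(hφU i k).2 hi', ?_⟩
    intro j hj
    have hj' : ¬ k ∈ U j := fun h => hj (Finset.mem_filter.2 ⟨Finset.mem_univ _, h⟩)
    have h1 : ¬ 0 < φ j k := fun h => hj' ((hφU j k).1 h)
    have h2 := (hφU i k).2 hi'
    linarith
  · intro j k hk
    obtain ⟨S, h1, h2⟩ := (htpos j k).1 hk
    have hopen : IsOpen {k | 0 < wt φ S k} := isOpen_lt continuous_const (wt_cont φ hφc S)
    have hRc := ((hR S (hcardne S j h1)).1 k h2).continuousAt (hopen.mem_nhds h2)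
    apply ContinuousAt.continuousWithinAt
    refine hRc.congr ?_
    filter_upwards [hopen.mem_nhds h2] with k' hk'
    exact (hρ j k' S h1 hk').symm
  · intro j k hk
    obtain ⟨S, h1, h2⟩ := (htpos j k).1 hk
    rw [hρ j k S h1 h2]
    exact (hR S (hcardne S j h1)).2.1 k h2
  · intro j k hkA hk
    obtain ⟨S, h1, h2⟩ := (htpos j k).1 hk
    rw [hρ j k S h1 h2]
    exact (hR S (hcardne S j h1)).2.2 k hkA h2

end Pool.Agent.K7.H35.R
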