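import Pool.Agent.K7.H35.R.Stat
import Pool.Agent.K7.H35.M.Mirror

/-!
# Stationary chains unfold to closed geodesics
-/

set_option autoImplicit false

open Set Topology Filter

namespace Pool.Agent.K7.H35.R

open Pool.Agent.Y489.GE

variable {X : Type} [MetricSpace X]

theorem spread {α β : ℝ → X} {η : ℝ} (hη : 0 ≤ η)
    (hα : ∀ s ∈ Icc (0 : ℝ) η, ∀ t ∈ Icc (0 : ℝ) η, dist (α s) (α t) = |s - t|)
    (hβ : ∀ s ∈ Icc (0 : ℝ) η, ∀ t ∈ Icc (0 : ℝ) η, dist (β s) (β t) = |s - t|)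
    (h0 : α 0 = β 0) (h : 2 * η ≤ dist (α η) (β η)) {s t : ℝ} (hs : s ∈ Icc (0 : ℝ) η)
    (ht : t ∈ Icc (0 : ℝ) η) : dist (α s) (β t) = s + t := by
  have z0 : (0 : ℝ) ∈ Icc (0 : ℝ) η := ⟨le_rfl, hη⟩
  have z1 : η ∈ Icc (0 : ℝ) η := ⟨hη, le_rfl⟩
  have h1 := hα s hs 0 z0
  have h2 := hβ 0 z0 t ht
  rw [sub_zero, abs_of_nonneg hs.1] at h1
  rw [zero_sub, abs_neg, abs_of_nonneg ht.1] at h2
  have h3 := dist_triangle (α s) (α 0) (β t)
  rw [h1, h0, h2] at h3
  refine le_antisymm h3 ?_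
  have h4 := hα η z1 s hs
  have h5 := hβ t ht η z1
  rw [abs_of_nonneg (by linarith [hs.2])] at h4
  rw [abs_sub_comm, abs_of_nonneg (by linarith [ht.2])] at h5
  have h6 := dist_triangle4 (α η) (α s) (β t) (β η)
  linarith

/-- a locally minimal curve with mirrors at both ends -/
theorem closed_of_mirrors (ι : X ≃ᵢ X) (Γ : ℝ → X) {ℓ η : ℝ}
    (hℓ : 0 < ℓ) (hη : 0 < η) (hηℓ : η ≤ ℓ)
    (hΓ : ∀ s t : ℝ, 0 ≤ s → s ≤ t → t ≤ ℓ → t ≤ s + η → dist (Γ s) (Γ t) = t - s)
    (h0 : ∀ s ∈ Icc (0 : ℝ) η, ∀ t ∈ Icc (0 : ℝ) η, dist (ι (Γ s)) (Γ t) = s + t)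
    (h1 : ∀ s ∈ Icc (0 : ℝ) η, ∀ t ∈ Icc (0 : ℝ) η, dist (ι (Γ (ℓ - s))) (Γ (ℓ - t)) = s + t) :
    ClosedGeod X (2 * ℓ) := by
  have z0 : (0 : ℝ) ∈ Icc (0 : ℝ) η := ⟨le_rfl, hη.le⟩
  have e1 : ι (Γ ℓ) = Γ ℓ := by
    have := h1 0 z0 0 z0
    rw [sub_zero, add_zero, dist_eq_zero] at this
    exact this
  set L : ℝ := 2 * ℓ with hL
  have hL0 : 0 < L := by linarith
  set β : ℝ → X := fun t => if t ≤ ℓ then Γ t else ι (Γ (2 * ℓ - t)) with hβ
  set γ : ℝ → X := fun t => β (t - ⌊t / L⌋ * L) with hγ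
  have hsh : ∀ t, γ (t + L) = (1 : X ≃ᵢ X) (γ t) := by
    intro t
    have e : (t + L) / L = t / L + 1 := by field_simp
    simp only [hγ]
    rw [e, Int.floor_add_one]
    have e2 : t + L - ((⌊t / L⌋ + 1 : ℤ) : ℝ) * L = t - ⌊t / L⌋ * L := by push_cast; ring
    rw [e2]
    rfl
  have hγ0 : ∀ t, 0 ≤ t → t ≤ ℓ → γ t = Γ t := by
    intro t h0 h1
    have e : ⌊t / L⌋ = 0 := by
      rw [Int.floor_eq_zero_iff]
      exact ⟨div_nonneg h0 hL0.le, (div_lt_one hL0).2 (by linarith)⟩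
    simp only [hγ]
    rw [e]
    simp [hβ, h1]
  have hγ1 : ∀ t, ℓ ≤ t → t < 2 * ℓ → γ t = ι (Γ (2 * ℓ - t)) := by
    intro t h0 h1
    have e : ⌊t / L⌋ = 0 := by
      rw [Int.floor_eq_zero_iff]
      exact ⟨div_nonneg (by linarith) hL0.le, (div_lt_one hL0).2 (by linarith)⟩
    simp only [hγ]
    rw [e]
    rcases eq_or_lt_of_le h0 with h | h
    · subst h
      have h2 : 2 * ℓ - ℓ = ℓ := by ring
      simp [hβ, h2, e1]
    · simp [hβ, not_le.2 h]
  have hγ2 : ∀ t, 2 * ℓ ≤ t → t ≤ 3 * ℓ → γ t = Γ (t - 2 * ℓ) := by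
    intro t h0 h1
    have := hsh (t - L)
    rw [sub_add_cancel] at this
    rw [this, hγ0 _ (by linarith) (by linarith)]
    rfl
  have hcl := Pool.Agent.K7.H35.M.closed_of_shift 1 1 le_rfl (one_pow 1) L hL0 γ hsh η hη (by
    intro s t k0 k1 k2 k3
    rcases lt_or_ge s ℓ with hs | hs
    · rcases le_or_gt t ℓ with ht | ht
      · rw [hγ0 s k0 hs.le, hγ0 t (by linarith) ht, hΓ s t k0 k2 ht k3]
      · rw [hγ0 s k0 hs.le, hγ1 t ht.le (by linarith), dist_comm]
        have h6 := h1 (t - ℓ) ⟨by linarith, by linarith⟩ (ℓ - s) ⟨by linarith, by linarith⟩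
        have e1 : ℓ - (t - ℓ) = 2 * ℓ - t := by ring
        have e2 : ℓ - (ℓ - s) = s := by ring
        rw [e1, e2] at h6
        rw [h6]
        ring
    · rcases lt_or_ge t (2 * ℓ) with ht | ht
      · rw [hγ1 s hs (by linarith), hγ1 t (by linarith) ht, ι.dist_eq, dist_comm,
          hΓ (2 * ℓ - t) (2 * ℓ - s) (by linarith) (by linarith) (by linarith) (by linarith)]
        ring
      · rw [hγ1 s hs (by linarith), hγ2 t ht (by linarith),
          h0 (2 * ℓ - s) ⟨by linarith, by linarith⟩ (t - 2 * ℓ) ⟨by linarith, by linarith⟩]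
        ring)
  have e : ((1 : ℕ) : ℝ) * L = 2 * ℓ := by rw [hL]; push_cast; ring
  rw [e] at hcl
  exact hcl

section

variable {r κ C : ℝ} {m : X → X → ℝ → X} {F : Set X} {A L ρ e : ℝ} {K q : ℕ}

theorem mirror_le (hr : 0 < r) (hm : GMap X (r / 4) m) (hU : UniqGeod X (r / 2))
    {G : Subgroup (X ≃ᵢ X)} {ι : X ≃ᵢ X} (hS : Sym X r F G ι) {y w : X} {η : ℝ}
    (hη : η ≤ r / 16) (hy : y ∈ F) (hw : dist w y = η)
    (h : ∀ z ∈ F, dist y z ≤ r / 4 → η ≤ dist w z) : 2 * η ≤ dist (ι w) w := by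
  have hh : (1 / 2 : ℝ) ∈ Icc (0 : ℝ) 1 := ⟨by norm_num, by norm_num⟩
  have h1 : dist (ι w) y = η := by
    rw [← hS.pt ι hS.mem y hy, ι.dist_eq, hw]
  have h2 := dist_triangle (ι w) y w
  rw [h1, dist_comm y w, hw] at h2
  have h3 : dist (ι w) w ≤ r / 4 := by linarith
  set z := m (ι w) w (1 / 2) with hz
  have z1 : dist (ι w) z = 1 / 2 * dist (ι w) w := hm.dist_left h3 hh
  have z2 : dist z w = (1 - 1 / 2) * dist (ι w) w := hm.dist_right h3 hh
  have w1 : dist (ι w) (ι z) = 1 / 2 * dist (ι w) w := by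
    rw [ι.dist_eq, dist_comm, z2]
    ring
  have w2 : dist (ι z) w = 1 / 2 * dist (ι w) w := by
    have : dist (ι z) w = dist (ι z) (ι (ι w)) := by rw [hS.inv]
    rw [this, ι.dist_eq, dist_comm, z1]
  have hzι : z = ι z := by
    refine hU (ι w) w z (ι z) (by linarith) (by rw [z1, z2]; ring) (by rw [w1, w2]; ring) ?_
    rw [z1, w1]
  have hzF : z ∈ F := hS.fix z hzι.symm
  have h4 := h z hzF (by
    have := dist_triangle y w z
    rw [dist_comm y w, hw, dist_comm w z, z2] at this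
    linarith)
  rw [dist_comm w z, z2] at h4
  linarith

theorem exists_eta (hr : 0 < r) (c : ℕ → X) (N : ℕ) :
    ∃ η : ℝ, 0 < η ∧ η ≤ r / 16 ∧ ∀ i < N, c i ≠ c (i + 1) → η ≤ dist (c i) (c (i + 1)) := by
  induction N with
  | zero => exact ⟨r / 16, by positivity, le_rfl, fun i hi => absurd hi (Nat.not_lt_zero i)⟩
  | succ N ih =>
    obtain ⟨η, h1, h2, h3⟩ := ih
    by_cases h : c N = c (N + 1)
    · refine ⟨η, h1, h2, fun i hi hne => ?_⟩
      rcases Nat.lt_succ_iff_lt_or_eq.1 hi with h4 | h4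
      · exact h3 i h4 hne
      · rw [h4] at hne
        exact absurd h hne
    · refine ⟨min η (dist (c N) (c (N + 1))), lt_min h1 (dist_pos.2 h),
        (min_le_left _ _).trans h2, fun i hi hne => ?_⟩
      rcases Nat.lt_succ_iff_lt_or_eq.1 hi with h4 | h4
      · exact (min_le_left _ _).trans (h3 i h4 hne)
      · rw [h4]
        exact min_le_right _ _

/-- the inner joint -/
theorem Par.joint (h : Par X r κ C m F A L ρ e K q) {G : Subgroup (X ≃ᵢ X)} {ι : X ≃ᵢ X}
    (hS : Sym X r F G ι) {M : Set ℕ} {c : ℕ → X} (hc : c ∈ Dom F (K * q) M e L)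
    (hst : Stat F A (K * q) M c) {a n : ℕ} (han : a < n) (hnN : n < K * q)
    (hI : ∀ i, a + 1 ≤ i → i ≤ n → c i = c n) {η : ℝ} (hη : 0 < η) (hηr : η ≤ r / 16)
    (hη1 : η ≤ dist (c a) (c (a + 1))) (hη2 : η ≤ dist (c n) (c (n + 1))) :
    ∃ g ∈ G, g (c n) = c n ∧ ∀ s ∈ Icc (0 : ℝ) η, ∀ t ∈ Icc (0 : ℝ) η,
      dist (adv m (c a) (c (a + 1)) (dist (c a) (c (a + 1)) - s))
        (g (adv m (c n) (c (n + 1)) t)) = s + t := by
  have hr := h.hr
  have hm := h.hm
  have hcr : ∀ i, dist (c i) (c (i + 1)) ≤ r / 4 := fun i => (hc.2.1 i).trans h.he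
  have hh : (1 / 2 : ℝ) ∈ Icc (0 : ℝ) 1 := ⟨by norm_num, by norm_num⟩
  have ea : c (a + 1) = c n := hI (a + 1) le_rfl han
  set d := dist (c a) (c (a + 1)) with hd
  set d' := dist (c n) (c (n + 1)) with hd'
  set u := adv m (c a) (c (a + 1)) (d - η) with hu
  set w := adv m (c n) (c (n + 1)) η with hw
  have ud : ∀ s ∈ Icc (0 : ℝ) η, ∀ t ∈ Icc (0 : ℝ) η,
      dist (adv m (c a) (c (a + 1)) (d - s)) (adv m (c a) (c (a + 1)) (d - t)) = |s - t| := by
    intro s hs t ht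
    rw [adv_dist hm (hcr a) ⟨by linarith [hs.2], by linarith [hs.1]⟩
      ⟨by linarith [ht.2], by linarith [ht.1]⟩, abs_sub_comm]
    congr 1
    ring
  have wd : ∀ s ∈ Icc (0 : ℝ) η, ∀ t ∈ Icc (0 : ℝ) η,
      dist (adv m (c n) (c (n + 1)) s) (adv m (c n) (c (n + 1)) t) = |s - t| := by
    intro s hs t ht
    exact adv_dist hm (hcr n) ⟨hs.1, by linarith [hs.2]⟩ ⟨ht.1, by linarith [ht.2]⟩
  have u1 : dist (c a) u = dist (c a) (c n) - η := by
    have := adv_dist hm (hcr a) (σ := 0) (τ := d - η) ⟨le_rfl, by linarith⟩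
      ⟨by linarith, by linarith⟩
    rw [adv_zero hm (hcr a) le_rfl, zero_sub, abs_neg, abs_of_nonneg (by linarith)] at this
    rw [this, ← ea]
  have u2 : dist u (c n) = η := by
    have := ud η ⟨hη.le, le_rfl⟩ 0 ⟨le_rfl, hη.le⟩
    rw [sub_zero, sub_zero, adv_full hm (hcr a) le_rfl, abs_of_nonneg hη.le, ← hu, ea] at this
    exact this
  have w1 : dist (c (n + 1)) w = dist (c (n + 1)) (c n) - η := by
    have := adv_dist hm (hcr n) (σ := η) (τ := d') ⟨hη.le, hη2⟩ ⟨by linarith, le_rfl⟩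
    rw [adv_full hm (hcr n) le_rfl, abs_sub_comm, abs_of_nonneg (by linarith)] at this
    rw [dist_comm, ← hw] at this
    rw [this, dist_comm (c (n + 1)) (c n)]
  have w2 : dist w (c n) = η := by
    have := wd η ⟨hη.le, le_rfl⟩ 0 ⟨le_rfl, hη.le⟩
    rw [adv_zero hm (hcr n) le_rfl, sub_zero, abs_of_nonneg hη.le] at this
    exact this
  have main : ∃ g ∈ G, g (c n) = c n ∧ 2 * η ≤ dist u (g w) := by
    by_cases hmk : ∃ i ∈ M, a + 1 ≤ i ∧ i ≤ n
    · obtain ⟨i, hi, hi1, hi2⟩ := hmk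
      have hyF : c n ∈ F := by
        rw [← hI i hi1 hi2]
        exact hc.1.2 i hi
      obtain ⟨g, hg, z, hz, hzg⟩ := hS.cross (c n) hyF u w (by rw [dist_comm, u2]; linarith)
        (by rw [dist_comm, w2]; linarith)
      refine ⟨g, hg, hS.pt g hg _ hyF, ?_⟩
      have e1 : dist z (g w) = dist z w := by
        conv_lhs => rw [← hS.pt g hg z hz]
        rw [g.dist_eq]
      have e2 : dist (c n) (g w) = η := by
        conv_lhs => rw [← hS.pt g hg (c n) hyF]
        rw [g.dist_eq, dist_comm, w2]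
      have e3 := dist_triangle u (c n) (g w)
      rw [u2, e2] at e3
      have e4 := dist_triangle (c n) u z
      rw [dist_comm (c n) u, u2] at e4
      have e5 : dist (c n) z ≤ r / 4 := by
        have := dist_nonneg (x := z) (y := g w)
        linarith
      have := joint_le hr hm h.hl h.hFc h.hA.le hc.1 hst han hnN hI hη (by linarith) u1 u2 w1 w2
        e5 (fun _ _ _ _ => hz)
      linarith
    · refine ⟨1, G.one_mem, rfl, ?_⟩
      show 2 * η ≤ dist u w
      have e3 := dist_triangle u (c n) w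
      rw [u2, dist_comm (c n) w, w2] at e3
      have e6 : dist u w ≤ r / 4 := by linarith
      have z1 := hm.dist_left e6 hh
      have z2 := hm.dist_right e6 hh
      have e5 : dist (c n) (m u w (1 / 2)) ≤ r / 4 := by
        have := dist_triangle (c n) u (m u w (1 / 2))
        rw [dist_comm (c n) u, u2] at this
        linarith
      have := joint_le hr hm h.hl h.hFc h.hA.le hc.1 hst han hnN hI hη (by linarith) u1 u2 w1 w2
        e5 (fun i hi h1 h2 => absurd ⟨i, hi, h1, h2⟩ hmk)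
      rw [z1, z2] at this
      linarith
  obtain ⟨g, hg, hgn, h2⟩ := main
  refine ⟨g, hg, hgn, fun s hs t ht => ?_⟩
  refine spread (α := fun s => adv m (c a) (c (a + 1)) (d - s))
    (β := fun t => g (adv m (c n) (c (n + 1)) t)) hη.le ud (fun s hs t ht => ?_) ?_ h2 hs ht
  · show dist (g _) (g _) = _
    rw [g.dist_eq]
    exact wd s hs t ht
  · show adv m (c a) (c (a + 1)) (d - 0) = g (adv m (c n) (c (n + 1)) 0)
    rw [sub_zero, adv_full hm (hcr a) le_rfl, adv_zero hm (hcr n) le_rfl, hgn, ea]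

/-- the first joint -/
theorem Par.start (h : Par X r κ C m F A L ρ e K q) (hU : UniqGeod X (r / 2))
    {G : Subgroup (X ≃ᵢ X)} {ι : X ≃ᵢ X}
    (hS : Sym X r F G ι) {M : Set ℕ} {c : ℕ → X} (hc : c ∈ Dom F (K * q) M e L)
    (hst : Stat F A (K * q) M c) {n : ℕ} (hnN : n < K * q)
    (hI : ∀ i, i ≤ n → c i = c n) {η : ℝ} (hη : 0 < η) (hηr : η ≤ r / 16)
    (hη2 : η ≤ dist (c n) (c (n + 1))) :
    ∀ s ∈ Icc (0 : ℝ) η, ∀ t ∈ Icc (0 : ℝ) η,
      dist (ι (adv m (c n) (c (n + 1)) s)) (adv m (c n) (c (n + 1)) t) = s + t := by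
  have hr := h.hr
  have hm := h.hm
  have hcr : ∀ i, dist (c i) (c (i + 1)) ≤ r / 4 := fun i => (hc.2.1 i).trans h.he
  set d' := dist (c n) (c (n + 1)) with hd'
  set w := adv m (c n) (c (n + 1)) η with hw
  have wd : ∀ s ∈ Icc (0 : ℝ) η, ∀ t ∈ Icc (0 : ℝ) η,
      dist (adv m (c n) (c (n + 1)) s) (adv m (c n) (c (n + 1)) t) = |s - t| := by
    intro s hs t ht
    exact adv_dist hm (hcr n) ⟨hs.1, by linarith [hs.2]⟩ ⟨ht.1, by linarith [ht.2]⟩
  have w1 : dist (c (n + 1)) w = dist (c (n + 1)) (c n) - η := by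
    have := adv_dist hm (hcr n) (σ := η) (τ := d') ⟨hη.le, hη2⟩ ⟨by linarith, le_rfl⟩
    rw [adv_full hm (hcr n) le_rfl, abs_sub_comm, abs_of_nonneg (by linarith)] at this
    rw [dist_comm, ← hw] at this
    rw [this, dist_comm (c (n + 1)) (c n)]
  have w2 : dist w (c n) = η := by
    have := wd η ⟨hη.le, le_rfl⟩ 0 ⟨le_rfl, hη.le⟩
    rw [adv_zero hm (hcr n) le_rfl, sub_zero, abs_of_nonneg hη.le] at this
    exact this
  have hle : ∀ z, dist (c n) z ≤ r / 4 → (∀ i ∈ M, i ≤ n → z ∈ F) → η ≤ dist w z := fun z hz hzM =>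
    start_le hr hm h.hl h.hFc h.hA.le hc.1 hst hnN hI hη (by linarith) w1 w2 hz hzM
  have hmk : ∃ i ∈ M, i ≤ n := by
    by_contra hmk
    have := hle w (by rw [dist_comm, w2]; linarith) (fun i hi h1 => absurd ⟨i, hi, h1⟩ hmk)
    rw [dist_self] at this
    linarith
  obtain ⟨i, hi, hi2⟩ := hmk
  have hyF : c n ∈ F := by
    rw [← hI i hi2]
    exact hc.1.2 i hi
  have h2 := mirror_le hr hm hU hS hηr hyF w2 (fun z hz hzr => hle z hzr fun _ _ _ => hz)
  intro s hs t ht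
  refine spread (α := fun s => ι (adv m (c n) (c (n + 1)) s))
    (β := fun t => adv m (c n) (c (n + 1)) t) hη.le (fun s hs t ht => ?_) wd ?_ h2 hs ht
  · show dist (ι _) (ι _) = _
    rw [ι.dist_eq]
    exact wd s hs t ht
  · show ι (adv m (c n) (c (n + 1)) 0) = adv m (c n) (c (n + 1)) 0
    rw [adv_zero hm (hcr n) le_rfl]
    exact hS.pt ι hS.mem _ hyF

/-- the last joint -/
theorem Par.stop (h : Par X r κ C m F A L ρ e K q) (hU : UniqGeod X (r / 2))
    {G : Subgroup (X ≃ᵢ X)} {ι : X ≃ᵢ X}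
    (hS : Sym X r F G ι) {M : Set ℕ} {c : ℕ → X} (hc : c ∈ Dom F (K * q) M e L)
    (hst : Stat F A (K * q) M c) {a : ℕ} (haN : a < K * q)
    (hI : ∀ i, a + 1 ≤ i → c i = c (K * q)) {η : ℝ} (hη : 0 < η) (hηr : η ≤ r / 16)
    (hη1 : η ≤ dist (c a) (c (a + 1))) :
    ∀ s ∈ Icc (0 : ℝ) η, ∀ t ∈ Icc (0 : ℝ) η,
      dist (ι (adv m (c a) (c (a + 1)) (dist (c a) (c (a + 1)) - s)))
        (adv m (c a) (c (a + 1)) (dist (c a) (c (a + 1)) - t)) = s + t := by
  have hr := h.hr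
  have hm := h.hm
  have hcr : ∀ i, dist (c i) (c (i + 1)) ≤ r / 4 := fun i => (hc.2.1 i).trans h.he
  have ea : c (a + 1) = c (K * q) := hI (a + 1) le_rfl
  set d := dist (c a) (c (a + 1)) with hd
  set u := adv m (c a) (c (a + 1)) (d - η) with hu
  have ud : ∀ s ∈ Icc (0 : ℝ) η, ∀ t ∈ Icc (0 : ℝ) η,
      dist (adv m (c a) (c (a + 1)) (d - s)) (adv m (c a) (c (a + 1)) (d - t)) = |s - t| := by
    intro s hs t ht
    rw [adv_dist hm (hcr a) ⟨by linarith [hs.2], by linarith [hs.1]⟩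
      ⟨by linarith [ht.2], by linarith [ht.1]⟩, abs_sub_comm]
    congr 1
    ring
  have u1 : dist (c a) u = dist (c a) (c (K * q)) - η := by
    have := adv_dist hm (hcr a) (σ := 0) (τ := d - η) ⟨le_rfl, by linarith⟩
      ⟨by linarith, by linarith⟩
    rw [adv_zero hm (hcr a) le_rfl, zero_sub, abs_neg, abs_of_nonneg (by linarith)] at this
    rw [this, ← ea]
  have u2 : dist u (c (K * q)) = η := by
    have := ud η ⟨hη.le, le_rfl⟩ 0 ⟨le_rfl, hη.le⟩
    rw [sub_zero, sub_zero, adv_full hm (hcr a) le_rfl, abs_of_nonneg hη.le, ← hu, ea] at this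
    exact this
  have hle : ∀ z, dist (c (K * q)) z ≤ r / 4 → (∀ i ∈ M, a + 1 ≤ i → z ∈ F) → η ≤ dist u z :=
    fun z hz hzM =>
    end_le hr hm h.hl h.hFc h.hA.le hc.1 hst haN hI hη (by linarith) u1 u2 hz hzM
  have hmk : ∃ i ∈ M, a + 1 ≤ i := by
    by_contra hmk
    have := hle u (by rw [dist_comm, u2]; linarith) (fun i hi h1 => absurd ⟨i, hi, h1⟩ hmk)
    rw [dist_self] at this
    linarith
  obtain ⟨i, hi, hi2⟩ := hmk
  have hyF : c (K * q) ∈ F := by
    rw [← hI i hi2]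
    exact hc.1.2 i hi
  have h2 := mirror_le hr hm hU hS hηr hyF u2 (fun z hz hzr => hle z hzr fun _ _ _ => hz)
  intro s hs t ht
  refine spread (α := fun s => ι (adv m (c a) (c (a + 1)) (d - s)))
    (β := fun s => adv m (c a) (c (a + 1)) (d - s)) hη.le (fun s hs t ht => ?_) ud ?_ h2 hs ht
  · show dist (ι _) (ι _) = _
    rw [ι.dist_eq]
    exact ud s hs t ht
  · show ι (adv m (c a) (c (a + 1)) (d - 0)) = adv m (c a) (c (a + 1)) (d - 0)
    rw [sub_zero, adv_full hm (hcr a) le_rfl, ea]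
    exact hS.pt ι hS.mem _ hyF

omit [MetricSpace X] in
theorem const_of {c : ℕ → X} {a b : ℕ} (h : ∀ j, a ≤ j → j < b → c j = c (j + 1)) :
    ∀ i, a ≤ i → i ≤ b → c i = c b := by
  induction b with
  | zero => intro i _ hi; rw [Nat.le_zero.1 hi]
  | succ b ih =>
    intro i h1 h2
    rcases Nat.le_succ_iff.1 h2 with h3 | h3
    · rw [ih (fun j k1 k2 => h j k1 (by omega)) i h1 h3]
      exact h b (by omega) (by omega)
    · rw [h3]

/-- **Unfolding**: a stationary chain of positive length gives a closed geodesic of at most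
twice the length -/
theorem Par.stat_closed (h : Par X r κ C m F A L ρ e K q) (hU : UniqGeod X (r / 2))
    {G : Subgroup (X ≃ᵢ X)} {ι : X ≃ᵢ X}
    (hS : Sym X r F G ι) {M : Set ℕ} {c : ℕ → X} (hc : c ∈ Dom F (K * q) M e L)
    (hst : Stat F A (K * q) M c) (hpos : 0 < cum c (K * q)) :
    ClosedGeod X (2 * cum c (K * q)) := by
  classical
  have hr := h.hr
  have hm := h.hm
  have hcr : ∀ i, dist (c i) (c (i + 1)) ≤ r / 4 := fun i => (hc.2.1 i).trans h.he
  obtain ⟨η, hη, hηr, hedge⟩ := exists_eta hr c (K * q)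
  -- the first non-trivial edge
  have hex : ∃ i, i < K * q ∧ c i ≠ c (i + 1) := by
    by_contra hcon
    push Not at hcon
    have : cum c (K * q) = 0 := Finset.sum_eq_zero fun i hi => by
      rw [hcon i (Finset.mem_range.1 hi), dist_self]
    linarith
  set n₀ := Nat.find hex with hn₀
  obtain ⟨hn₀N, hn₀ne⟩ : n₀ < K * q ∧ c n₀ ≠ c (n₀ + 1) := Nat.find_spec hex
  have hmin : ∀ j < n₀, c j = c (j + 1) := by
    intro j hj
    have := Nat.find_min hex hj
    by_contra hne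
    exact this ⟨by omega, hne⟩
  have hI0 : ∀ i, i ≤ n₀ → c i = c n₀ := fun i hi =>
    const_of (a := 0) (fun j _ h2 => hmin j h2) i (Nat.zero_le _) hi
  have hcum0 : cum c n₀ = 0 := Finset.sum_eq_zero fun i hi => by
    rw [hmin i (Finset.mem_range.1 hi), dist_self]
  have key : ∀ n, n₀ + 1 ≤ n → n ≤ K * q → ∃ (Γ : ℝ → X) (g : X ≃ᵢ X) (a : ℕ), g ∈ G ∧ a < n ∧
      η ≤ dist (c a) (c (a + 1)) ∧ (∀ i, a + 1 ≤ i → i ≤ n → c i = c n) ∧
      (∀ s t : ℝ, 0 ≤ s → s ≤ t → t ≤ cum c n → t ≤ s + η → dist (Γ s) (Γ t) = t - s) ∧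
      (∀ s ∈ Icc (0 : ℝ) η, Γ (cum c n - s) =
        g (adv m (c a) (c (a + 1)) (dist (c a) (c (a + 1)) - s))) ∧
      (∀ s ∈ Icc (0 : ℝ) η, Γ s = adv m (c n₀) (c (n₀ + 1)) s) ∧ η ≤ cum c n := by
    intro n hn
    induction n, hn using Nat.le_induction with
    | base =>
      intro _
      have e1 : cum c (n₀ + 1) = dist (c n₀) (c (n₀ + 1)) := by rw [cum_succ, hcum0, zero_add]
      refine ⟨fun s => adv m (c n₀) (c (n₀ + 1)) s, 1, n₀, G.one_mem, Nat.lt_succ_self _,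
        hedge n₀ hn₀N hn₀ne, fun i h1 h2 => by rw [le_antisymm h2 h1], ?_, ?_, fun _ _ => rfl,
        by rw [e1]; exact hedge n₀ hn₀N hn₀ne⟩
      · intro s t h0 h1 h2 _
        rw [e1] at h2
        rw [adv_dist hm (hcr n₀) ⟨h0, by linarith⟩ ⟨by linarith, h2⟩, abs_sub_comm,
          abs_of_nonneg (by linarith)]
      · intro s _
        rw [e1]
        rfl
    | succ n hn ih =>
      intro hnN
      obtain ⟨Γ, g, a, hg, han, hEa, hI, hΓ, hlast, hfirst, hηn⟩ := ih (by omega)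
      by_cases hne : c n = c (n + 1)
      · have e1 : cum c (n + 1) = cum c n := by rw [cum_succ, ← hne, dist_self, add_zero]
        rw [e1]
        refine ⟨Γ, g, a, hg, by omega, hEa, fun i h1 h2 => ?_, hΓ, hlast, hfirst, hηn⟩
        rcases Nat.le_succ_iff.1 h2 with h3 | h3
        · rw [hI i h1 h3, hne]
        · rw [h3]
      · have hE := hedge n (by omega) hne
        obtain ⟨g', hg', hg'n, hj⟩ := h.joint hS hc hst han (by omega) hI hη hηr hEa hE
        have e1 : cum c (n + 1) = cum c n + dist (c n) (c (n + 1)) := cum_succ c n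
        have hend : Γ (cum c n) = g (c n) := by
          have := hlast 0 ⟨le_rfl, hη.le⟩
          rw [sub_zero, sub_zero, adv_full hm (hcr a) le_rfl, hI (a + 1) le_rfl (by omega)] at this
          exact this
        refine ⟨fun s => if s ≤ cum c n then Γ s else
          g (g' (adv m (c n) (c (n + 1)) (s - cum c n))), g * g', n, G.mul_mem hg hg',
          Nat.lt_succ_self _, hE, fun i h1 h2 => by rw [le_antisymm h2 h1], ?_, ?_, ?_, ?_⟩
        · intro s t h0 h1 h2 h3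
          rw [e1] at h2
          dsimp only
          rcases le_or_gt t (cum c n) with h4 | h4
          · rw [if_pos (h1.trans h4), if_pos h4]
            exact hΓ s t h0 h1 h4 h3
          · rw [if_neg (not_le.2 h4)]
            rcases le_or_gt s (cum c n) with h5 | h5
            · rw [if_pos h5]
              have e2 := hlast (cum c n - s) ⟨by linarith, by linarith⟩
              have e3 : cum c n - (cum c n - s) = s := by ring
              rw [e3] at e2
              rw [e2, g.dist_eq, hj (cum c n - s) ⟨by linarith, by linarith⟩ (t - cum c n)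
                ⟨by linarith, by linarith⟩]
              ring
            · rw [if_neg (not_le.2 h5), g.dist_eq, g'.dist_eq,
                adv_dist hm (hcr n) ⟨by linarith, by linarith⟩ ⟨by linarith, by linarith⟩,
                abs_sub_comm, abs_of_nonneg (by linarith)]
              ring
        · intro s hs
          rw [e1]
          dsimp only
          by_cases h6 : cum c n + dist (c n) (c (n + 1)) - s ≤ cum c n
          · have h7 : dist (c n) (c (n + 1)) - s = 0 := by linarith [hs.2]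
            have h8 : cum c n + dist (c n) (c (n + 1)) - s = cum c n := by linarith
            rw [if_pos h6, h8, h7, adv_zero hm (hcr n) le_rfl, hend, IsometryEquiv.mul_apply, hg'n]
          · rw [if_neg h6, IsometryEquiv.mul_apply]
            congr 3
            ring
        · intro s hs
          dsimp only
          rw [if_pos (by linarith [hs.2]), hfirst s hs]
        · rw [e1]
          linarith [dist_nonneg (x := c n) (y := c (n + 1))]
  obtain ⟨Γ, g, a, hg, han, hEa, hI, hΓ, hlast, hfirst, hηn⟩ := key (K * q) (by omega) le_rfl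
  have hI' : ∀ i, a + 1 ≤ i → c i = c (K * q) := by
    intro i hi
    rcases le_total i (K * q) with h1 | h1
    · exact hI i hi h1
    · exact hc.1.1 i h1
  refine closed_of_mirrors ι Γ hpos hη hηn hΓ ?_ ?_
  · intro s hs t ht
    rw [hfirst s hs, hfirst t ht]
    exact h.start hU hS hc hst hn₀N hI0 hη hηr (hedge n₀ hn₀N hn₀ne) s hs t ht
  · intro s hs t ht
    rw [hlast s hs, hlast t ht, hS.comm g hg, g.dist_eq]
    exact h.stop hU hS hc hst (by omega) hI' hη hηr hEa s hs t ht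

end

end Pool.Agent.K7.H35.R
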