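import Pool.Agent.K7.H35.R.Asm
import Pool.Agent.K7.H35.R.Rel
import Pool.Agent.K7.H35.R.Unfold
import Pool.Agent.Y489.GE.Fin2
import Pool.Agent.Y467.GE.MG

/-!
# The main theorem
-/

set_option autoImplicit false

open Set Topology Filter

namespace Pool.Agent.K7.H35.R

open Pool.Agent.Y489.GE

variable {X : Type} [MetricSpace X]

theorem closed_mono {a b : ℝ} (h : ClosedGeod X a) (hab : a ≤ b) : ClosedGeod X b := by
  obtain ⟨γ, ℓ, h1, h2, h3⟩ := h
  exact ⟨γ, ℓ, h1, h2.trans hab, h3⟩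

theorem stat_closed_set (F : Set X) (A : ℝ) (N : ℕ) (M : Set ℕ) :
    IsClosed {c : ℕ → X | Stat F A N M c} := by
  have : {c : ℕ → X | Stat F A N M c} =
      ⋂ w ∈ Adm F N M, {c : ℕ → X | cum c N ≤ cum w N + A * sq N c w} := by
    ext c
    simp [Stat]
  rw [this]
  refine isClosed_biInter fun w _ => isClosed_le (cum_cont continuous_id N) ?_
  refine continuous_const.add (continuous_const.mul ?_)
  rw [← continuousOn_univ]
  exact sq_cont continuousOn_id continuousOn_const N

theorem core [CompactSpace X] (hX : GeodSpace X) {r κ C : ℝ} (hr : 0 < r) (hκ : 0 < κ)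
    (hC : 0 ≤ C) (hl : LocConv X r κ C) {F : Set X} {G : Subgroup (X ≃ᵢ X)} {ι : X ≃ᵢ X}
    (hS : Sym X r F G ι) {D : ℝ} (hDF : ∀ x : X, ∃ z ∈ F, dist z x ≤ D) {q : ℕ} (hq : 1 ≤ q)
    (Y : Type) [MetricSpace Y] [CompactSpace Y] (hY : CovDim Y q) (f : Y → X) (A : Set Y)
    (hf : Continuous f) (hfA : ∀ y ∈ A, f y ∈ F) (hno : ¬ ClosedGeod X (4 * q * D)) :
    ∃ H : Y → ℝ → X, Continuous (fun z : Y × ℝ => H z.1 z.2) ∧ (∀ y, H y 0 ∈ F) ∧
      (∀ y, H y 1 = f y) ∧ ∀ y ∈ A, ∀ s, H y s = f y := by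
  classical
  rcases le_or_gt D 0 with hD0 | hD0
  · refine ⟨fun y _ => f y, hf.comp continuous_fst, fun y => ?_, fun _ => rfl, fun y _ _ => rfl⟩
    obtain ⟨z, hz, hzd⟩ := hDF (f y)
    have : z = f y := dist_le_zero.1 (hzd.trans hD0)
    show f y ∈ F
    rw [← this]
    exact hz
  have hU := uniq hX hκ hl
  obtain ⟨m, hm'⟩ := Pool.Agent.Y467.GE.t_MG X (r / 2) (by linarith) hX hU
  have hm : GMap X (r / 4) m := by
    have : r / 2 / 2 = r / 4 := by ring
    rwa [this] at hm'
  have hF := hS.closed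
  have hFc := hS.conv hr hm hU
  -- the constants
  have hq' : (1 : ℝ) ≤ q := by exact_mod_cast hq
  obtain ⟨B, hB1, hB2, hB3, hB4⟩ : ∃ B : ℝ, 0 < B ∧ 2 * C < B * κ ∧ 2 * C ≤ B ∧
      2 * q * (D + 1) ≤ B * (r / 32) ^ 2 := by
    refine ⟨1 + 2 * C + 2 * C / κ + 2 * q * (D + 1) / (r / 32) ^ 2, ?_, ?_, ?_, ?_⟩
    · positivity
    · have h1 : 2 * C / κ * κ = 2 * C := div_mul_cancel₀ _ hκ.ne'
      have h2 : 0 ≤ 2 * q * (D + 1) / (r / 32) ^ 2 := by positivity
      nlinarith
    · have h1 : 0 ≤ 2 * C / κ := by positivity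
      have h2 : 0 ≤ 2 * q * (D + 1) / (r / 32) ^ 2 := by positivity
      linarith
    · have h3 : (2 * q * (D + 1) / (r / 32) ^ 2) * (r / 32) ^ 2 = 2 * q * (D + 1) :=
        div_mul_cancel₀ _ (by positivity)
      have h1 : 0 ≤ 2 * C / κ := by positivity
      have h4 : 0 ≤ (1 + 2 * C + 2 * C / κ) * (r / 32) ^ 2 := by positivity
      nlinarith
  obtain ⟨k, hk⟩ := exists_nat_ge (16 * q * (D + 1) / r)
  have hk0 : 0 < k := by
    have : (0 : ℝ) < k := lt_of_lt_of_le (by positivity) hk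
    exact_mod_cast this
  have hk0' : (0 : ℝ) < k := by exact_mod_cast hk0
  rw [div_le_iff₀ hr] at hk
  have hpar : ∀ L : ℝ, L ≤ 2 * q * (D + 1) → Par X r κ C m F B L (r / 32) (r / 4) (2 * k) q := by
    intro L hL
    refine ⟨hr, hC, hm, hl, hF, hFc, hB1, hB2, hB3, by positivity, by linarith, le_rfl,
      hL.trans hB4, by omega, ?_⟩
    have h1 : L / ((2 * k : ℕ) : ℝ) ≤ r / 16 := by
      rw [div_le_iff₀ (by positivity)]
      push_cast
      linarith
    linarith
  set ε : ℝ := r / 8 with hε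
  have hε0 : 0 < ε := by positivity
  -- the stationary chains
  set Lm : ℝ := 2 * q * (D + 1) with hLm
  obtain ⟨ε', hε', hε'1, hstat⟩ : ∃ ε' : ℝ, 0 < ε' ∧ ε' ≤ 1 ∧ ∀ S ⊆ Finset.range (q + 1),
      ∀ c ∈ Dom F (2 * k * q) (mks (2 * k) S) (r / 4) Lm, ε ≤ cum c (2 * k * q) →
      Stat F B (2 * k * q) (mks (2 * k) S) c → 2 * q * (D + ε') < cum c (2 * k * q) := by
    have h1 : ∀ S : Finset ℕ, ∃ v : ℝ, 2 * q * D < v ∧
        ∀ c ∈ Dom F (2 * k * q) (mks (2 * k) S) (r / 4) Lm, ε ≤ cum c (2 * k * q) →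
        Stat F B (2 * k * q) (mks (2 * k) S) c → v ≤ cum c (2 * k * q) := by
      intro S
      set Z : Set (ℕ → X) := Dom F (2 * k * q) (mks (2 * k) S) (r / 4) Lm ∩
        ({c | ε ≤ cum c (2 * k * q)} ∩ {c | Stat F B (2 * k * q) (mks (2 * k) S) c}) with hZ
      have hZc : IsCompact Z := ((dom_closed hF _ _ _ _).inter
        ((isClosed_le continuous_const (cum_cont continuous_id _)).inter
          (stat_closed_set F B _ _))).isCompact
      rcases Z.eq_empty_or_nonempty with he | hne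
      · refine ⟨2 * q * D + 1, by linarith, fun c h1 h2 h3 => ?_⟩
        have : c ∈ Z := ⟨h1, h2, h3⟩
        rw [he] at this
        exact this.elim
      · obtain ⟨c₀, ⟨h1, h2, h3⟩, hmin⟩ := hZc.exists_isMinOn hne
          (cum_cont continuous_id (2 * k * q)).continuousOn
        refine ⟨cum c₀ (2 * k * q), ?_, fun c k1 k2 k3 => hmin (show c ∈ Z from ⟨k1, k2, k3⟩)⟩
        by_contra hcon
        push Not at hcon
        apply hno
        refine closed_mono ((hpar Lm le_rfl).stat_closed hU hS h1 h3 (lt_of_lt_of_le hε0 h2)) ?_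
        nlinarith
    choose v hv1 hv2 using h1
    have hne : (Finset.range (q + 1)).powerset.Nonempty := ⟨∅, by simp⟩
    set V := (Finset.range (q + 1)).powerset.inf' hne v with hV
    have hV1 : 2 * q * D < V := (Finset.lt_inf'_iff hne).2 fun S _ => hv1 S
    have hq2 : (0 : ℝ) < 2 * q := by linarith
    refine ⟨min 1 ((V - 2 * q * D) / (4 * q)), lt_min one_pos (div_pos (by linarith)
      (by linarith)), min_le_left _ _, fun S hSs c h1 h2 h3 => ?_⟩
    have h4 : V ≤ cum c (2 * k * q) :=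
      (Finset.inf'_le v (Finset.mem_powerset.2 hSs)).trans (hv2 S c h1 h2 h3)
    have h5 : min 1 ((V - 2 * q * D) / (4 * q)) ≤ (V - 2 * q * D) / (4 * q) := min_le_right _ _
    rw [le_div_iff₀ (by linarith)] at h5
    nlinarith
  -- the data
  set b : ℝ := D + min ε' (r / 8) with hb
  have hmin0 : 0 < min ε' (r / 8) := lt_min hε' (by positivity)
  have hb0 : 0 ≤ b := by linarith
  have hb1 : b ≤ D + 1 := by linarith [min_le_left ε' (r / 8)]
  obtain ⟨t, ρ, hdata⟩ := dataF_exists hY hr hm hU hS hD0.le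
    (fun x => by
      obtain ⟨z, hz, hzd⟩ := hDF x
      exact ⟨z, hz, exists_path hX z x hD0 hzd⟩) hmin0 (min_le_right _ _) f hf A hfA
  obtain ⟨w, η, c, hη, hw, hw0, hwη, hc, hcN, hce, hcm, hck, hcA⟩ := init hb0 hq hf hdata hk0
  have hbk : b / k ≤ r / 16 := by
    rw [div_le_iff₀ hk0']
    nlinarith
  set L : ℝ := 2 * q * b with hL
  have hLL : L ≤ Lm := by
    rw [hL, hLm]
    nlinarith
  have hlen : ∀ y, cum (c y) (2 * k * q) ≤ L := by
    intro y
    have h1 : cum (c y) (2 * k * q) ≤ ∑ _i ∈ Finset.range (2 * k * q), b / k :=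
      Finset.sum_le_sum fun i _ => hce y i
    rw [Finset.sum_const, Finset.card_range, nsmul_eq_mul] at h1
    refine h1.trans (le_of_eq ?_)
    push_cast
    rw [hL]
    field_simp
  have hP := hpar L hLL
  obtain ⟨g, hg1, hg2, hg3, hg4⟩ := assemble (F := F) (K := 2 * k) (q := q) (e := r / 4) (L := L)
    (ε := ε) (w := w) (A := A) (c₀ := c) (p := f) hF hη hw hwη hc
    (fun y => ⟨⟨hcN y, fun i hi => absurd hi (by simp)⟩,
      fun i => (hce y i).trans (by linarith), hlen y⟩)
    hcm hcA (fun S hSs => by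
      refine hP.flow (M := mks (2 * k) S) ?_ ?_
      · rintro i ⟨v, _, rfl⟩
        exact Dvd.intro v rfl
      · intro c' hc' hεc hst
        have h1 := hstat S hSs c' ⟨hc'.1, hc'.2.1, hc'.2.2.trans hLL⟩ hεc hst
        have h2 := hc'.2.2
        have h3 : L ≤ 2 * q * (D + ε') := by
          rw [hL]
          have := min_le_left ε' (r / 8)
          nlinarith
        linarith)
  -- the tracked point
  have hkN : k ≤ 2 * k * q := by nlinarith
  have hnear : ∀ y, dist (g y k) (ι (g y k)) ≤ r / 4 := by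
    intro y
    obtain ⟨v, hv, hvF⟩ := hg4 y
    have h1 : dist (g y k) (g y (2 * k * v)) ≤ ε := by
      have hvN : 2 * k * v ≤ 2 * k * q := Nat.mul_le_mul_left _ hv
      rcases le_total k (2 * k * v) with h2 | h2
      · have := dist_le_cum (g y) h2
        have h3 := cum_mono (g y) hvN
        have h4 := cum_nonneg (g y) k
        linarith [hg3 y]
      · have := dist_le_cum (g y) h2
        have h3 := cum_mono (g y) hkN
        have h4 := cum_nonneg (g y) (2 * k * v)
        rw [dist_comm]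
        linarith [hg3 y]
    have h2 : dist (g y (2 * k * v)) (ι (g y k)) = dist (g y k) (g y (2 * k * v)) := by
      conv_lhs => rw [← hS.pt ι hS.mem _ hvF]
      rw [ι.dist_eq, dist_comm]
    have h3 := dist_triangle (g y k) (g y (2 * k * v)) (ι (g y k))
    rw [h2] at h3
    linarith
  have hA0 : ∀ y ∈ A, g y k = f y := fun y hy => by rw [htp_eq hg1 hy, hcA y hy]
  have ph1 : Htp (univ : Set X) A f (fun y => g y k) := by
    obtain ⟨H, h1, h2, h3, h4, h5⟩ := hg1
    refine ⟨fun y s => H y s k, (continuous_apply k).comp h1, fun _ _ => mem_univ _,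
      fun y s hs => ?_, fun y s hs => ?_, fun y hy s => ?_⟩
    · show H y s k = f y
      rw [h3 y s hs, hck]
    · show H y s k = g y k
      rw [h4 y s hs]
    · show H y s k = f y
      rw [h5 y hy s, hck]
  have hgk : Continuous fun y => g y k := (continuous_apply k).comp (htp_cont hg1)
  have ph2 : Htp (univ : Set X) A (fun y => g y k) (fun y => m (g y k) (ι (g y k)) (1 / 2)) := by
    refine Htp.of_clamp (fun y s => m (g y k) (ι (g y k)) (s / 2)) ?_ (fun _ _ _ => mem_univ _)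
      (fun y => ?_) (fun y => ?_) (fun y hy s hs => ?_)
    · have h1 : ContinuousOn (fun z : Y × ℝ => (g z.1 k, ι (g z.1 k), z.2 / 2))
          {z | z.2 ∈ Icc (0 : ℝ) 1} := by
        apply Continuous.continuousOn
        exact (hgk.comp continuous_fst).prodMk ((ι.continuous.comp
          (hgk.comp continuous_fst)).prodMk (continuous_snd.div_const _))
      refine hm.cont.comp h1 fun z hz => ⟨hnear z.1, ?_⟩
      have hz' : z.2 ∈ Icc (0 : ℝ) 1 := hz
      exact ⟨by linarith [hz'.1], by linarith [hz'.2]⟩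
    · show m (g y k) (ι (g y k)) (0 / 2) = g y k
      rw [zero_div, hm.zero _ _ (hnear y)]
    · rfl
    · show m (g y k) (ι (g y k)) (s / 2) = g y k
      rw [hA0 y hy, hS.pt ι hS.mem _ (hfA y hy), hm.self (by positivity) _
        ⟨by linarith [hs.1], by linarith [hs.2]⟩]
  obtain ⟨H, h1, _, h3, h4, h5⟩ := ph1.trans ph2
  refine ⟨fun y s => H y (1 - s), ?_, fun y => ?_, fun y => ?_, fun y hy s => ?_⟩
  · exact h1.comp (continuous_fst.prodMk (continuous_const.sub continuous_snd))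
  · show H y (1 - 0) ∈ F
    rw [h4 y (1 - 0) (by norm_num)]
    exact hS.mid hr hm hU _ (hnear y)
  · show H y (1 - 1) = f y
    exact h3 y (1 - 1) (by norm_num)
  · show H y (1 - s) = f y
    rw [h5 y hy]

end Pool.Agent.K7.H35.R
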