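import Pool.Agent.K7.H35.R.Arc

/-!
# The proximal motion of chains
-/

set_option autoImplicit false

open Set Topology Filter

namespace Pool.Agent.K7.H35.R

open Pool.Agent.Y489.GE

variable {X : Type} [MetricSpace X]

/-- chains with `N` edges whose vertices with numbers in `M` lie in `F` -/
def Adm (F : Set X) (N : ℕ) (M : Set ℕ) : Set (ℕ → X) :=
  {c | (∀ i, N ≤ i → c i = c N) ∧ ∀ i ∈ M, c i ∈ F}

/-- the sum of the squares of the distances of the vertices of two chains -/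
noncomputable def sq (N : ℕ) (c w : ℕ → X) : ℝ := ∑ i ∈ Finset.range (N + 1), dist (c i) (w i) ^ 2

theorem sq_nonneg (N : ℕ) (c w : ℕ → X) : 0 ≤ sq N c w := Finset.sum_nonneg fun _ _ => by positivity

theorem le_sq {N : ℕ} (c w : ℕ → X) {i : ℕ} (h : i ≤ N) : dist (c i) (w i) ^ 2 ≤ sq N c w :=
  Finset.single_le_sum (f := fun i => dist (c i) (w i) ^ 2) (fun _ _ => by positivity)
    (Finset.mem_range.2 (by omega))

theorem sq_self (N : ℕ) (c : ℕ → X) : sq N c c = 0 := by simp [sq]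

theorem sq_cont {Z : Type} [TopologicalSpace Z] {c w : Z → ℕ → X} {S : Set Z}
    (hc : ContinuousOn c S) (hw : ContinuousOn w S) (N : ℕ) :
    ContinuousOn (fun z => sq N (c z) (w z)) S := by
  unfold sq
  refine continuousOn_finsetSum _ fun i _ => ?_
  have h1 : ContinuousOn (fun z => c z i) S := (continuous_apply i).comp_continuousOn hc
  have h2 : ContinuousOn (fun z => w z i) S := (continuous_apply i).comp_continuousOn hw
  exact (continuous_dist.comp_continuousOn (h1.prodMk h2)).pow 2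

/-- the functional which is minimized -/
noncomputable def J (A : ℝ) (N : ℕ) (c w : ℕ → X) : ℝ := cum w N + A * sq N c w

theorem adm_closed {F : Set X} (hF : IsClosed F) (N : ℕ) (M : Set ℕ) : IsClosed (Adm F N M) := by
  have : Adm F N M = (⋂ i, ⋂ _ : N ≤ i, {c : ℕ → X | c i = c N}) ∩ ⋂ i ∈ M, {c | c i ∈ F} := by
    ext c
    simp [Adm]
  rw [this]
  exact (isClosed_iInter fun i => isClosed_iInter fun _ =>
    isClosed_eq (continuous_apply i) (continuous_apply N)).inter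
    (isClosed_biInter fun i _ => hF.preimage (continuous_apply i))

/-- a minimizer of the functional -/
def Min (F : Set X) (A : ℝ) (N : ℕ) (M : Set ℕ) (c w : ℕ → X) : Prop :=
  w ∈ Adm F N M ∧ ∀ w' ∈ Adm F N M, J A N c w ≤ J A N c w'

theorem min_exists [CompactSpace X] {F : Set X} (hF : IsClosed F) (A : ℝ) (N : ℕ) (M : Set ℕ)
    (c : ℕ → X) (hne : (Adm F N M).Nonempty) : ∃ w, Min F A N M c w := by
  have h1 : ContinuousOn (fun w : ℕ → X => J A N c w) (Adm F N M) :=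
    (cum_cont continuous_id N).continuousOn.add
      (continuousOn_const.mul (sq_cont continuousOn_const continuousOn_id N))
  obtain ⟨w, hw, h2⟩ := (adm_closed hF N M).isCompact.exists_isMinOn hne h1
  exact ⟨w, hw, fun w' hw' => h2 hw'⟩

theorem min_le {F : Set X} {A : ℝ} {N : ℕ} {M : Set ℕ} {c w : ℕ → X} (hc : c ∈ Adm F N M)
    (hw : Min F A N M c w) : cum w N + A * sq N c w ≤ cum c N := by
  have := hw.2 c hc
  unfold J at this
  rwa [sq_self, mul_zero, add_zero] at this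

theorem min_near {F : Set X} {A L ρ : ℝ} {N : ℕ} {M : Set ℕ} {c w : ℕ → X} (hA : 0 < A)
    (hρ : 0 ≤ ρ) (hL : L ≤ A * ρ ^ 2) (hc : c ∈ Adm F N M) (hcL : cum c N ≤ L)
    (hw : Min F A N M c w) (i : ℕ) : dist (c i) (w i) ≤ ρ := by
  have h1 := min_le hc hw
  have h2 := cum_nonneg w N
  have key : ∀ i ≤ N, dist (c i) (w i) ≤ ρ := by
    intro i hi
    have h3 := le_sq c w hi
    have h4 : A * dist (c i) (w i) ^ 2 ≤ A * ρ ^ 2 := by nlinarith
    have h5 : dist (c i) (w i) ^ 2 ≤ ρ ^ 2 := le_of_mul_le_mul_left h4 hA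
    exact abs_le_of_sq_le_sq' h5 hρ |>.2
  rcases le_or_gt i N with h | h
  · exact key i h
  · rw [hc.1 i h.le, hw.1.1 i h.le]
    exact key N le_rfl

theorem sum_shift (a : ℕ → ℝ) (ha : ∀ i, 0 ≤ a i) (N : ℕ) :
    ∑ i ∈ Finset.range N, (a i + a (i + 1)) ≤ 2 * ∑ i ∈ Finset.range (N + 1), a i := by
  rw [Finset.sum_add_distrib]
  have h1 := Finset.sum_range_succ a N
  have h2 := Finset.sum_range_succ' a N
  linarith [ha 0, ha N]

/-- the mixture of two chains -/
def mix (m : X → X → ℝ → X) (c w : ℕ → X) (t : ℝ) : ℕ → X := fun i => m (c i) (w i) t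

section

variable {r κ C : ℝ} {m : X → X → ℝ → X}

theorem mix_adm {F : Set X}
    (hFc : ∀ x ∈ F, ∀ y ∈ F, dist x y ≤ r / 4 → ∀ t ∈ Icc (0 : ℝ) 1, m x y t ∈ F) {N : ℕ}
    {M : Set ℕ} {c w : ℕ → X} (hc : c ∈ Adm F N M) (hw : w ∈ Adm F N M)
    (hd : ∀ i, dist (c i) (w i) ≤ r / 4) {t : ℝ} (ht : t ∈ Icc (0 : ℝ) 1) :
    mix m c w t ∈ Adm F N M := by
  refine ⟨fun i hi => ?_, fun i hi => hFc _ (hc.2 i hi) _ (hw.2 i hi) (hd i) t ht⟩
  unfold mix
  rw [hc.1 i hi, hw.1 i hi]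

theorem mix_cum (hr : 0 < r) (hm : GMap X (r / 4) m) (hl : LocConv X r κ C) (hC : 0 ≤ C) (N : ℕ)
    {c w : ℕ → X} (hd : ∀ i, dist (c i) (w i) ≤ r / 4) (hc : ∀ i, dist (c i) (c (i + 1)) < r)
    (hw : ∀ i, dist (w i) (w (i + 1)) < r) {t : ℝ} (ht : t ∈ Icc (0 : ℝ) 1) :
    cum (mix m c w t) N ≤ (1 - t) * cum c N + t * cum w N + 2 * C * (t * (1 - t)) * sq N c w := by
  have h1 : ∀ i, dist (mix m c w t i) (mix m c w t (i + 1)) ≤
      (1 - t) * dist (c i) (c (i + 1)) + t * dist (w i) (w (i + 1)) +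
        C * (t * (1 - t)) * (dist (c i) (w i) ^ 2 + dist (c (i + 1)) (w (i + 1)) ^ 2) := by
    intro i
    have := hl.joint (c i) (w i) (mix m c w t i) (c (i + 1)) (w (i + 1)) (mix m c w t (i + 1)) t ht
      (by linarith [hd i]) (by linarith [hd (i + 1)]) (hc i) (hw i)
      (hm.dist_left (hd i) ht) (hm.dist_right (hd i) ht)
      (hm.dist_left (hd (i + 1)) ht) (hm.dist_right (hd (i + 1)) ht)
    linarith
  have h2 := Finset.sum_le_sum (s := Finset.range N) fun i _ => h1 i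
  have h3 := sum_shift (fun i => dist (c i) (w i) ^ 2) (fun i => by positivity) N
  have ht' : 0 ≤ C * (t * (1 - t)) := mul_nonneg hC (mul_nonneg ht.1 (by linarith [ht.2]))
  have h4 := mul_le_mul_of_nonneg_left h3 ht'
  rw [Finset.sum_add_distrib, Finset.sum_add_distrib, ← Finset.mul_sum, ← Finset.mul_sum,
    ← Finset.mul_sum] at h2
  have e1 : cum (mix m c w t) N =
      ∑ i ∈ Finset.range N, dist (mix m c w t i) (mix m c w t (i + 1)) := rfl
  have e2 : cum c N = ∑ i ∈ Finset.range N, dist (c i) (c (i + 1)) := rfl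
  have e3 : cum w N = ∑ i ∈ Finset.range N, dist (w i) (w (i + 1)) := rfl
  have e4 : sq N c w = ∑ i ∈ Finset.range (N + 1), dist (c i) (w i) ^ 2 := rfl
  rw [← e4] at h4
  rw [← e1, ← e2, ← e3] at h2
  linarith

theorem mix_edge (hm : GMap X (r / 4) m) {ρ : ℝ} (hρ : ρ ≤ r / 4) {c w : ℕ → X}
    (hd : ∀ i, dist (c i) (w i) ≤ ρ) {t : ℝ} (ht : t ∈ Icc (0 : ℝ) 1) (i : ℕ) :
    dist (mix m c w t i) (mix m c w t (i + 1)) ≤ dist (c i) (c (i + 1)) + 2 * ρ := by
  have h1 : ∀ i, dist (c i) (mix m c w t i) ≤ ρ := by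
    intro i
    unfold mix
    rw [hm.dist_left ((hd i).trans hρ) ht]
    have := hd i
    nlinarith [ht.1, ht.2, dist_nonneg (x := c i) (y := w i)]
  have h2 := dist_triangle4 (mix m c w t i) (c i) (c (i + 1)) (mix m c w t (i + 1))
  have h3 := h1 i
  rw [dist_comm] at h3
  linarith [h1 (i + 1)]

theorem min_unique (hr : 0 < r) (hC : 0 ≤ C) (hm : GMap X (r / 4) m)
    (hl : LocConv X r κ C) {F : Set X}
    (hFc : ∀ x ∈ F, ∀ y ∈ F, dist x y ≤ r / 4 → ∀ t ∈ Icc (0 : ℝ) 1, m x y t ∈ F)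
    {A L ρ e : ℝ} {N : ℕ} {M : Set ℕ} (hA : 0 < A) (hAC : 2 * C < A * κ) (hρ : 0 ≤ ρ)
    (hρr : ρ ≤ r / 8) (he : e ≤ r / 4) (hL : L ≤ A * ρ ^ 2) {c : ℕ → X} (hc : c ∈ Adm F N M)
    (hcL : cum c N ≤ L) (hce : ∀ i, dist (c i) (c (i + 1)) ≤ e) {w w' : ℕ → X}
    (hw : Min F A N M c w) (hw' : Min F A N M c w') : w = w' := by
  have n1 := min_near hA hρ hL hc hcL hw
  have n2 := min_near hA hρ hL hc hcL hw'
  have hd : ∀ i, dist (w i) (w' i) ≤ r / 4 := by
    intro i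
    have := dist_triangle_left (w i) (w' i) (c i)
    linarith [n1 i, n2 i]
  have hwe : ∀ i, dist (w i) (w (i + 1)) < r := by
    intro i
    have := dist_triangle4 (w i) (c i) (c (i + 1)) (w (i + 1))
    rw [dist_comm (w i) (c i)] at this
    linarith [n1 i, n1 (i + 1), hce i]
  have hwe' : ∀ i, dist (w' i) (w' (i + 1)) < r := by
    intro i
    have := dist_triangle4 (w' i) (c i) (c (i + 1)) (w' (i + 1))
    rw [dist_comm (w' i) (c i)] at this
    linarith [n2 i, n2 (i + 1), hce i]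
  have hh : (1 / 2 : ℝ) ∈ Icc (0 : ℝ) 1 := ⟨by norm_num, by norm_num⟩
  set u := mix m w w' (1 / 2) with hu
  have hadm : u ∈ Adm F N M := mix_adm hFc hw.1 hw'.1 hd hh
  have h1 := mix_cum hr hm hl hC N hd hwe hwe' hh
  rw [← hu] at h1
  -- the squares
  have h2 : ∀ i, dist (c i) (u i) ^ 2 ≤ (1 - 1 / 2) * dist (c i) (w i) ^ 2 +
      1 / 2 * dist (c i) (w' i) ^ 2 - κ * (1 / 2 * (1 - 1 / 2)) * dist (w i) (w' i) ^ 2 := by
    intro i
    have := hl.strong (c i) (w i) (w' i) (u i) (1 / 2) hh (by linarith [n1 i])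
      (by linarith [n2 i]) (by linarith [hd i]) (hm.dist_left (hd i) hh)
      (hm.dist_right (hd i) hh)
    linarith
  have h3 := Finset.sum_le_sum (s := Finset.range (N + 1)) fun i _ => h2 i
  rw [Finset.sum_sub_distrib, Finset.sum_add_distrib, ← Finset.mul_sum, ← Finset.mul_sum,
    ← Finset.mul_sum] at h3
  have h4 : sq N c u ≤ (1 - 1 / 2) * sq N c w + 1 / 2 * sq N c w' -
      κ * (1 / 2 * (1 - 1 / 2)) * sq N w w' := h3
  have h5 := hw.2 u hadm
  have h6 := hw'.2 u hadm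
  unfold J at h5 h6
  have h7 : sq N w w' ≤ 0 := by
    have h8 := sq_nonneg N w w'
    have h9 := mul_le_mul_of_nonneg_left h4 hA.le
    nlinarith
  have key : ∀ i ≤ N, w i = w' i := by
    intro i hi
    have h8 := le_sq w w' hi
    have h9 : dist (w i) (w' i) ^ 2 = 0 := le_antisymm (h8.trans h7) (by positivity)
    exact dist_eq_zero.1 (pow_eq_zero_iff (two_ne_zero) |>.1 h9)
  funext i
  rcases le_or_gt i N with h | h
  · exact key i h
  · rw [hw.1.1 i h.le, hw'.1.1 i h.le]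
    exact key N le_rfl

open Classical in
/-- the minimizer -/
noncomputable def T (F : Set X) (A : ℝ) (N : ℕ) (M : Set ℕ) (c : ℕ → X) : ℕ → X :=
  if h : ∃ w, Min F A N M c w then h.choose else c

theorem T_spec [CompactSpace X] {F : Set X} (hF : IsClosed F) (A : ℝ) (N : ℕ) (M : Set ℕ)
    {c : ℕ → X} (hc : c ∈ Adm F N M) : Min F A N M c (T F A N M c) := by
  have h := min_exists hF A N M c ⟨c, hc⟩
  unfold T
  rw [dif_pos h]
  exact h.choose_spec

/-- the domain -/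
def Dom (F : Set X) (N : ℕ) (M : Set ℕ) (e L : ℝ) : Set (ℕ → X) :=
  {c | c ∈ Adm F N M ∧ (∀ i, dist (c i) (c (i + 1)) ≤ e) ∧ cum c N ≤ L}

theorem dom_closed {F : Set X} (hF : IsClosed F) (N : ℕ) (M : Set ℕ) (e L : ℝ) :
    IsClosed (Dom F N M e L) := by
  have : Dom F N M e L = Adm F N M ∩ ((⋂ i, {c : ℕ → X | dist (c i) (c (i + 1)) ≤ e}) ∩
      {c | cum c N ≤ L}) := by
    ext c
    simp only [Dom, mem_inter_iff, mem_iInter, mem_setOf_eq]
  rw [this]
  exact (adm_closed hF N M).inter ((isClosed_iInter fun i =>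
    isClosed_le ((continuous_apply i).dist (continuous_apply (i + 1))) continuous_const).inter
    (isClosed_le (cum_cont continuous_id N) continuous_const))

theorem T_cont [CompactSpace X] (hr : 0 < r) (hC : 0 ≤ C) (hm : GMap X (r / 4) m)
    (hl : LocConv X r κ C) {F : Set X} (hF : IsClosed F)
    (hFc : ∀ x ∈ F, ∀ y ∈ F, dist x y ≤ r / 4 → ∀ t ∈ Icc (0 : ℝ) 1, m x y t ∈ F)
    {A L ρ e : ℝ} {N : ℕ} {M : Set ℕ} (hA : 0 < A) (hAC : 2 * C < A * κ) (hρ : 0 ≤ ρ)
    (hρr : ρ ≤ r / 8) (he : e ≤ r / 4) (hL : L ≤ A * ρ ^ 2) :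
    ContinuousOn (T F A N M) (Dom F N M e L) := by
  intro c hc
  show Tendsto (T F A N M) _ (𝓝 (T F A N M c))
  rw [tendsto_iff_ultrafilter]
  intro g hg
  have hg1 : (g : Filter (ℕ → X)) ≤ 𝓝 c := hg.trans nhdsWithin_le_nhds
  have hgS : ∀ᶠ c' in (g : Filter (ℕ → X)), c' ∈ Dom F N M e L := hg self_mem_nhdsWithin
  obtain ⟨w, -, hw⟩ := (isCompact_univ : IsCompact (univ : Set (ℕ → X))).ultrafilter_le_nhds
    (g.map (T F A N M)) (by simp)
  have hw' : Tendsto (T F A N M) (g : Filter (ℕ → X)) (𝓝 w) := hw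
  have hJ : Continuous fun q : (ℕ → X) × (ℕ → X) => J A N q.1 q.2 := by
    refine (cum_cont continuous_snd N).add (continuous_const.mul ?_)
    rw [← continuousOn_univ]
    exact sq_cont continuous_fst.continuousOn continuous_snd.continuousOn N
  have hmin : Min F A N M c w := by
    refine ⟨(adm_closed hF N M).mem_of_tendsto hw' (hgS.mono fun c' h =>
      (T_spec hF A N M h.1).1), fun w' hadm => ?_⟩
    have k1 : Tendsto (fun c' : ℕ → X => (c', T F A N M c')) (g : Filter (ℕ → X)) (𝓝 (c, w)) :=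
      Tendsto.prodMk_nhds hg1 hw'
    have k2 : Tendsto (fun c' : ℕ → X => (c', w')) (g : Filter (ℕ → X)) (𝓝 (c, w')) :=
      Tendsto.prodMk_nhds hg1 tendsto_const_nhds
    have h1 := (hJ.tendsto (c, w)).comp k1
    have h2 := (hJ.tendsto (c, w')).comp k2
    exact le_of_tendsto_of_tendsto h1 h2 (hgS.mono fun c' h => (T_spec hF A N M h.1).2 w' hadm)
  have : T F A N M c = w := min_unique hr hC hm hl hFc hA hAC hρ hρr he hL hc.1 hc.2.2 hc.2.1
    (T_spec hF A N M hc.1) hmin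
  rw [this]
  exact hw'

end

end Pool.Agent.K7.H35.R
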