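import Pool.Agent.K7.H35.R.Flow

/-!
# The length decreasing step
-/

set_option autoImplicit false

open Set Topology Filter

namespace Pool.Agent.K7.H35.R

open Pool.Agent.Y489.GE

variable {X : Type} [MetricSpace X]

/-- the constants of the construction -/
structure Par (X : Type) [MetricSpace X] (r κ C : ℝ) (m : X → X → ℝ → X) (F : Set X)
    (A L ρ e : ℝ) (K q : ℕ) : Prop where
  hr : 0 < r
  hC : 0 ≤ C
  hm : GMap X (r / 4) m
  hl : LocConv X r κ C
  hF : IsClosed F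
  hFc : ∀ x ∈ F, ∀ y ∈ F, dist x y ≤ r / 4 → ∀ t ∈ Icc (0 : ℝ) 1, m x y t ∈ F
  hA : 0 < A
  hAC : 2 * C < A * κ
  hAC' : 2 * C ≤ A
  hρ : 0 ≤ ρ
  hρr : ρ ≤ r / 8
  he : e ≤ r / 4
  hL : L ≤ A * ρ ^ 2
  hK : 0 < K
  hKe : L / K + 2 * ρ ≤ e

section

variable {r κ C : ℝ} {m : X → X → ℝ → X} {F : Set X} {A L ρ e : ℝ} {K q : ℕ}

theorem Par.rp_mem (h : Par X r κ C m F A L ρ e K q) {M : Set ℕ} (hM : ∀ i ∈ M, K ∣ i)
    {c : ℕ → X} (hc : c ∈ Dom F (K * q) M e L) {t : ℝ} (ht : t ∈ Icc (0 : ℝ) 1) :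
    Rp m (K * q) K c t ∈ Dom F (K * q) M e L := by
  have hcr : ∀ i, dist (c i) (c (i + 1)) ≤ r / 4 := fun i => (hc.2.1 i).trans h.he
  refine ⟨⟨fun i hi => rp_stab h.hm h.hK hcr hc.1.1 ht hi, fun i hi => ?_⟩, fun i => ?_, ?_⟩
  · obtain ⟨v, rfl⟩ := hM i hi
    rw [rp_mark h.hm h.hK hcr hc.1.1]
    exact hc.1.2 _ hi
  · refine (rp_edge h.hm h.hK hcr ht i).trans ?_
    have hK' : (0 : ℝ) < K := by exact_mod_cast h.hK
    have h1 : (cum c (K * (i / K + 1)) - cum c (K * (i / K))) / K ≤ e := by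
      refine le_trans ?_ h.hKe
      have h2 := cum_le_N hc.1.1 (K * (i / K + 1))
      have h3 := cum_nonneg c (K * (i / K))
      have h4 : (cum c (K * (i / K + 1)) - cum c (K * (i / K))) / K ≤ L / K :=
        div_le_div_of_nonneg_right (by linarith [hc.2.2]) hK'.le
      linarith [h.hρ]
    have h2 := hc.2.1 i
    nlinarith [ht.1, ht.2]
  · exact (rp_cum h.hm h.hK hcr ht).trans hc.2.2

theorem Par.rp_one_edge (h : Par X r κ C m F A L ρ e K q) {M : Set ℕ}
    {c : ℕ → X} (hc : c ∈ Dom F (K * q) M e L) (i : ℕ) :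
    dist (Rp m (K * q) K c 1 i) (Rp m (K * q) K c 1 (i + 1)) ≤ L / K := by
  have hcr : ∀ i, dist (c i) (c (i + 1)) ≤ r / 4 := fun i => (hc.2.1 i).trans h.he
  refine (rp_edge h.hm h.hK hcr ⟨zero_le_one, le_rfl⟩ i).trans ?_
  have hK' : (0 : ℝ) < K := by exact_mod_cast h.hK
  have h2 := cum_le_N hc.1.1 (K * (i / K + 1))
  have h3 := cum_nonneg c (K * (i / K))
  have h4 : (cum c (K * (i / K + 1)) - cum c (K * (i / K))) / K ≤ L / K :=
    div_le_div_of_nonneg_right (by linarith [hc.2.2]) hK'.le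
  linarith

variable [CompactSpace X]

/-- the motion to the minimizer -/
noncomputable def Pr (m : X → X → ℝ → X) (F : Set X) (A : ℝ) (N : ℕ) (M : Set ℕ) (c : ℕ → X)
    (t : ℝ) : ℕ → X := mix m c (T F A N M c) t

theorem Par.T_near (h : Par X r κ C m F A L ρ e K q) {M : Set ℕ} {c : ℕ → X}
    (hc : c ∈ Dom F (K * q) M e L) (i : ℕ) : dist (c i) (T F A (K * q) M c i) ≤ ρ :=
  min_near h.hA h.hρ h.hL hc.1 hc.2.2 (T_spec h.hF A (K * q) M hc.1) i

theorem Par.pr_adm (h : Par X r κ C m F A L ρ e K q) {M : Set ℕ} {c : ℕ → X}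
    (hc : c ∈ Dom F (K * q) M e L) {t : ℝ} (ht : t ∈ Icc (0 : ℝ) 1) :
    Pr m F A (K * q) M c t ∈ Adm F (K * q) M :=
  mix_adm h.hFc hc.1 (T_spec h.hF A (K * q) M hc.1).1
    (fun i => (h.T_near hc i).trans (by linarith [h.hρr, h.hr])) ht

theorem Par.pr_edge (h : Par X r κ C m F A L ρ e K q) {M : Set ℕ} {c : ℕ → X}
    (hc : c ∈ Dom F (K * q) M e L) {t : ℝ} (ht : t ∈ Icc (0 : ℝ) 1) (i : ℕ) :
    dist (Pr m F A (K * q) M c t i) (Pr m F A (K * q) M c t (i + 1)) ≤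
      dist (c i) (c (i + 1)) + 2 * ρ :=
  mix_edge h.hm (by linarith [h.hρr, h.hr]) (h.T_near hc) ht i

theorem Par.pr_cum (h : Par X r κ C m F A L ρ e K q) {M : Set ℕ} {c : ℕ → X}
    (hc : c ∈ Dom F (K * q) M e L) {t : ℝ} (ht : t ∈ Icc (0 : ℝ) 1) :
    cum (Pr m F A (K * q) M c t) (K * q) ≤ cum c (K * q) := by
  have hn := h.T_near hc
  have hr := h.hr
  have h1 := mix_cum h.hr h.hm h.hl h.hC (K * q) (c := c) (w := T F A (K * q) M c)
    (fun i => (hn i).trans (by linarith [h.hρr])) (fun i => by linarith [hc.2.1 i, h.he])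
    (fun i => by
      have := dist_triangle4 (T F A (K * q) M c i) (c i) (c (i + 1)) (T F A (K * q) M c (i + 1))
      rw [dist_comm (T F A (K * q) M c i) (c i)] at this
      linarith [hn i, hn (i + 1), hc.2.1 i, h.he, h.hρr]) ht
  have h2 := min_le hc.1 (T_spec h.hF A (K * q) M hc.1)
  have h3 := sq_nonneg (K * q) c (T F A (K * q) M c)
  unfold Pr
  refine h1.trans ?_
  have h4 : t * cum (T F A (K * q) M c) (K * q) ≤
      t * (cum c (K * q) - A * sq (K * q) c (T F A (K * q) M c)) :=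
    mul_le_mul_of_nonneg_left (by linarith) ht.1
  have h5 : 2 * C * (t * (1 - t)) * sq (K * q) c (T F A (K * q) M c) ≤
      t * (A * sq (K * q) c (T F A (K * q) M c)) := by
    have h6 : 2 * C * (1 - t) ≤ A := by
      have := h.hAC'
      have := h.hC
      nlinarith [ht.1, ht.2]
    have h7 : 0 ≤ t * sq (K * q) c (T F A (K * q) M c) := mul_nonneg ht.1 h3
    nlinarith
  linarith

theorem Par.pr_zero (h : Par X r κ C m F A L ρ e K q) {M : Set ℕ} {c : ℕ → X}
    (hc : c ∈ Dom F (K * q) M e L) : Pr m F A (K * q) M c 0 = c := by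
  funext i
  exact h.hm.zero _ _ ((h.T_near hc i).trans (by linarith [h.hρr, h.hr]))

theorem Par.pr_one (h : Par X r κ C m F A L ρ e K q) {M : Set ℕ} {c : ℕ → X}
    (hc : c ∈ Dom F (K * q) M e L) : Pr m F A (K * q) M c 1 = T F A (K * q) M c := by
  funext i
  exact h.hm.one _ _ ((h.T_near hc i).trans (by linarith [h.hρr, h.hr]))

theorem Par.T_of_ge (h : Par X r κ C m F A L ρ e K q) {M : Set ℕ} {c : ℕ → X}
    (hc : c ∈ Dom F (K * q) M e L) (hge : cum c (K * q) ≤ cum (T F A (K * q) M c) (K * q)) :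
    T F A (K * q) M c = c := by
  have hs := T_spec h.hF A (K * q) M hc.1
  have h2 := min_le hc.1 hs
  have h3 : sq (K * q) c (T F A (K * q) M c) ≤ 0 := by
    have : A * sq (K * q) c (T F A (K * q) M c) ≤ A * 0 := by linarith
    exact le_of_mul_le_mul_left this h.hA
  have key : ∀ i ≤ K * q, T F A (K * q) M c i = c i := by
    intro i hi
    have h8 := le_sq c (T F A (K * q) M c) hi
    have h9 : dist (c i) (T F A (K * q) M c i) ^ 2 = 0 := le_antisymm (h8.trans h3) (by positivity)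
    exact (dist_eq_zero.1 (pow_eq_zero_iff (two_ne_zero) |>.1 h9)).symm
  funext i
  rcases le_or_gt i (K * q) with hi | hi
  · exact key i hi
  · rw [hs.1.1 i hi.le, hc.1.1 i hi.le]
    exact key _ le_rfl

theorem Par.pr_const (h : Par X r κ C m F A L ρ e K q) {M : Set ℕ} {x : X}
    (hc : (fun _ => x) ∈ Dom F (K * q) M e L) {t : ℝ} (ht : t ∈ Icc (0 : ℝ) 1) :
    Pr m F A (K * q) M (fun _ => x) t = fun _ => x := by
  have h1 : T F A (K * q) M (fun _ => x) = fun _ => x := by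
    apply h.T_of_ge hc
    refine le_trans (le_of_eq ?_) (cum_nonneg _ _)
    simp [cum]
  unfold Pr
  rw [h1]
  funext i
  exact h.hm.self (by linarith [h.hr]) x ht

theorem Par.pr_cont (h : Par X r κ C m F A L ρ e K q) (M : Set ℕ) :
    ContinuousOn (fun z : (ℕ → X) × ℝ => Pr m F A (K * q) M z.1 z.2)
      (Dom F (K * q) M e L ×ˢ Icc (0 : ℝ) 1) := by
  have hT := T_cont h.hr h.hC h.hm h.hl h.hF h.hFc h.hA h.hAC h.hρ h.hρr h.he h.hL
    (N := K * q) (M := M)
  refine continuousOn_pi.2 fun i => ?_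
  have h1 : ContinuousOn (fun z : (ℕ → X) × ℝ => (z.1 i, T F A (K * q) M z.1 i, z.2))
      (Dom F (K * q) M e L ×ˢ Icc (0 : ℝ) 1) := by
    refine ((continuous_apply i).comp continuous_fst).continuousOn.prodMk
      (ContinuousOn.prodMk ?_ continuous_snd.continuousOn)
    exact (continuous_apply i).comp_continuousOn (hT.comp continuous_fst.continuousOn
      fun z hz => hz.1)
  exact h.hm.cont.comp h1 fun z hz =>
    ⟨(h.T_near hz.1 i).trans (by linarith [h.hρr, h.hr]), hz.2⟩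

/-- one step: reparametrisation, followed by the motion to the minimizer -/
noncomputable def St (m : X → X → ℝ → X) (F : Set X) (A : ℝ) (K q : ℕ) (M : Set ℕ) (c : ℕ → X)
    (t : ℝ) : ℕ → X :=
  Pr m F A (K * q) M (Rp m (K * q) K c (cl (2 * t))) (cl (2 * t - 1))

theorem Par.st_fl (h : Par X r κ C m F A L ρ e K q) {M : Set ℕ} (hM : ∀ i ∈ M, K ∣ i) :
    Fl (K * q) (Dom F (K * q) M e L) (St m F A K q M) := by
  have hr4 : (0 : ℝ) ≤ r / 4 := by linarith [h.hr]
  have hcr : ∀ c ∈ Dom F (K * q) M e L, ∀ i, dist (c i) (c (i + 1)) ≤ r / 4 :=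
    fun c hc i => (hc.2.1 i).trans h.he
  have hR : ∀ c ∈ Dom F (K * q) M e L, ∀ t, Rp m (K * q) K c (cl t) ∈ Dom F (K * q) M e L :=
    fun c hc t => h.rp_mem hM hc (cl_mem t)
  refine ⟨?_, ?_, ?_, ?_, ?_⟩
  · have h1 : ContinuousOn (fun z : (ℕ → X) × ℝ => Rp m (K * q) K z.1 (cl (2 * z.2)))
        (Dom F (K * q) M e L ×ˢ Icc (0 : ℝ) 1) := by
      have : ContinuousOn (fun z : (ℕ → X) × ℝ => ((z.1, cl (2 * z.2)) : (ℕ → X) × ℝ))
          (Dom F (K * q) M e L ×ˢ Icc (0 : ℝ) 1) := by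
        apply Continuous.continuousOn
        exact continuous_fst.prodMk (cl_cont.comp (continuous_const.mul continuous_snd))
      exact (rp_cont h.hm hr4 (K * q) K hcr).comp this fun z hz => ⟨hz.1, cl_mem _⟩
    have h2 : ContinuousOn (fun z : (ℕ → X) × ℝ =>
        ((Rp m (K * q) K z.1 (cl (2 * z.2)), cl (2 * z.2 - 1)) : (ℕ → X) × ℝ))
        (Dom F (K * q) M e L ×ˢ Icc (0 : ℝ) 1) := by
      refine h1.prodMk (Continuous.continuousOn ?_)
      exact cl_cont.comp ((continuous_const.mul continuous_snd).sub continuous_const)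
    exact (h.pr_cont M).comp h2 fun z hz => ⟨hR _ hz.1 _, cl_mem _⟩
  · intro c hc
    unfold St
    rw [mul_zero, zero_sub, cl_of_le le_rfl, cl_of_le (by norm_num)]
    have e1 : Rp m (K * q) K c 0 = c := rp_zero h.hm (hcr c hc) hc.1.1
    rw [e1, h.pr_zero hc]
  · intro c hc t ht
    unfold St
    refine ⟨h.pr_adm (hR c hc _) (cl_mem _), fun i => ?_,
      (h.pr_cum (hR c hc _) (cl_mem _)).trans (hR c hc _).2.2⟩
    rcases le_total t (1 / 2) with ht2 | ht2
    · rw [cl_of_le (show 2 * t - 1 ≤ 0 by linarith), h.pr_zero (hR c hc _)]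
      exact (hR c hc _).2.1 i
    · refine (h.pr_edge (hR c hc _) (cl_mem _) i).trans ?_
      rw [cl_of_ge (show 1 ≤ 2 * t by linarith)]
      have := h.rp_one_edge hc i
      linarith [h.hKe]
  · intro c hc t ht
    unfold St
    exact (h.pr_cum (hR c hc _) (cl_mem _)).trans (rp_cum h.hm h.hK (hcr c hc) (cl_mem _))
  · intro x hx t ht
    unfold St
    have e1 : Rp m (K * q) K (fun _ => x) (cl (2 * t)) = fun _ => x := rp_const h.hm hr4 _ _ _ _
    rw [e1, h.pr_const hx (cl_mem _)]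

/-- a chain which is its own minimizer -/
def Stat (F : Set X) (A : ℝ) (N : ℕ) (M : Set ℕ) (c : ℕ → X) : Prop :=
  ∀ w ∈ Adm F N M, cum c N ≤ cum w N + A * sq N c w

theorem Par.st_dec (h : Par X r κ C m F A L ρ e K q) {M : Set ℕ} (hM : ∀ i ∈ M, K ∣ i)
    {c : ℕ → X} (hc : c ∈ Dom F (K * q) M e L)
    (hge : cum c (K * q) ≤ cum (St m F A K q M c 1) (K * q)) :
    ∃ c' ∈ Dom F (K * q) M e L, cum c' (K * q) = cum c (K * q) ∧ Stat F A (K * q) M c' := by
  have h1 : (1 : ℝ) ∈ Icc (0 : ℝ) 1 := ⟨zero_le_one, le_rfl⟩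
  have hcr : ∀ i, dist (c i) (c (i + 1)) ≤ r / 4 := fun i => (hc.2.1 i).trans h.he
  unfold St at hge
  rw [cl_of_ge (show (1 : ℝ) ≤ 2 * 1 by norm_num), cl_of_ge (show (1 : ℝ) ≤ 2 * 1 - 1 by norm_num)]
    at hge
  have hc' := h.rp_mem hM hc h1
  rw [h.pr_one hc'] at hge
  have h2 := rp_cum h.hm h.hK hcr h1 (q := q)
  have h3 := T_spec h.hF A (K * q) M hc'.1
  have h4 := h.T_of_ge hc' (h2.trans hge)
  rw [h4] at h3 hge
  refine ⟨_, hc', le_antisymm h2 hge, fun w hw => ?_⟩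
  have h5 := h3.2 w hw
  unfold J at h5
  rwa [sq_self, mul_zero, add_zero] at h5

/-- if there are no stationary chains of length at least `ε`, then all chains can be shortened -/
theorem Par.flow (h : Par X r κ C m F A L ρ e K q) {M : Set ℕ} (hM : ∀ i ∈ M, K ∣ i) {ε : ℝ}
    (hno : ∀ c ∈ Dom F (K * q) M e L, ε ≤ cum c (K * q) → ¬ Stat F A (K * q) M c) :
    ∃ Q, Fl (K * q) (Dom F (K * q) M e L) Q ∧
      ∀ c ∈ Dom F (K * q) M e L, cum (Q c 1) (K * q) ≤ ε := by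
  refine (h.st_fl hM).short (dom_closed h.hF _ _ _ _).isCompact (fun c hc => hc.2.2) ?_
  intro c hc hce
  by_contra hcon
  push Not at hcon
  obtain ⟨c', h1, h2, h3⟩ := h.st_dec hM hc hcon
  exact hno c' h1 (by rw [h2]; exact hce) h3

end

end Pool.Agent.K7.H35.R
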